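import Pool.Agent.H316R3.LT.Dim

open MeasureTheory ProbabilityTheory Set Filter Topology
open scoped NNReal ENNReal

namespace H316.LT

variable {Ω : Type*} {mΩ : MeasurableSpace Ω} {P : Measure Ω}

/-- summability in expectation gives a random uniform bound -/
lemma sum_as {ι : Type*} (W : ℕ → ι → Ω → ℝ) (S : ℕ → Finset ι)
    (hW0 : ∀ m s ω, 0 ≤ W m s ω) (hWi : ∀ m s, Integrable (W m s) P) (a : ℕ → ℝ)
    (hWa : ∀ m, ∀ s ∈ S m, ∫ ω, W m s ω ∂P ≤ a m)
    (hs : Summable (fun m => ((S m).card : ℝ) * a m)) (ha : ∀ m, 0 ≤ a m) :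
    ∀ᵐ ω ∂P, ∃ z : ℝ, ∀ m, ∀ s ∈ S m, W m s ω ≤ z := by
  have hmeas : ∀ m, AEMeasurable (fun ω => ∑ s ∈ S m, ENNReal.ofReal (W m s ω)) P := fun m =>
    Finset.aemeasurable_fun_sum _ fun s _ => (hWi m s).aemeasurable.ennreal_ofReal
  have h1 : ∫⁻ ω, ∑' m, ∑ s ∈ S m, ENNReal.ofReal (W m s ω) ∂P ≤
      ENNReal.ofReal (∑' m, ((S m).card : ℝ) * a m) := by
    rw [lintegral_tsum hmeas, ENNReal.ofReal_tsum_of_nonneg
      (fun m => mul_nonneg (Nat.cast_nonneg _) (ha m)) hs]
    refine ENNReal.tsum_le_tsum fun m => ?_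
    rw [lintegral_finsetSum' _ fun s _ => (hWi m s).aemeasurable.ennreal_ofReal]
    calc ∑ s ∈ S m, ∫⁻ ω, ENNReal.ofReal (W m s ω) ∂P
        ≤ ∑ s ∈ S m, ENNReal.ofReal (a m) := by
          refine Finset.sum_le_sum fun s hs => ?_
          rw [← ofReal_integral_eq_lintegral_ofReal (hWi m s) (ae_of_all _ fun ω => hW0 m s ω)]
          exact ENNReal.ofReal_le_ofReal (hWa m s hs)
      _ = ENNReal.ofReal (((S m).card : ℝ) * a m) := by
          rw [Finset.sum_const, nsmul_eq_mul, ENNReal.ofReal_mul (by positivity),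
            ENNReal.ofReal_natCast]
  have h2 : ∫⁻ ω, ∑' m, ∑ s ∈ S m, ENNReal.ofReal (W m s ω) ∂P ≠ ∞ :=
    ne_top_of_le_ne_top ENNReal.ofReal_ne_top h1
  have h3 := ae_lt_top' (AEMeasurable.tsum hmeas) h2
  filter_upwards [h3] with ω hω
  refine ⟨(∑' m, ∑ s ∈ S m, ENNReal.ofReal (W m s ω)).toReal, fun m s hs => ?_⟩
  have h4 : ENNReal.ofReal (W m s ω) ≤ ∑' m, ∑ s ∈ S m, ENNReal.ofReal (W m s ω) :=
    (Finset.single_le_sum (f := fun s => ENNReal.ofReal (W m s ω)) (fun _ _ => zero_le) hs).trans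
      (ENNReal.le_tsum m)
  exact (ENNReal.ofReal_le_iff_le_toReal hω.ne).1 h4

lemma psi_eq_win (h c t u : ℝ) : psi h (c + t) u = win h (c + h) (u - t) - win h c (u - t) := by
  unfold psi win indicator
  simp only [mem_Ico, Pi.one_apply]
  split_ifs <;> first | rfl | (exfalso; grind)

lemma win_shift (h c t u : ℝ) : win h (c + t) u = win h c (u - t) := by
  unfold win indicator
  simp only [mem_Ico, Pi.one_apply]
  split_ifs <;> first | rfl | (exfalso; grind)

variable {B : ℝ≥0 → Ω → ℝ}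

lemma path_meas (hB : GoodBM B P) {f : ℝ → ℝ} (hf : Continuous f) :
    Measurable (Function.uncurry (fun (ω : Ω) (r : ℝ) => B r.toNNReal ω - f r)) := by
  have hW : Measurable (Function.uncurry (fun (r : ℝ) (ω : Ω) => B r.toNNReal ω - f r)) := by
    apply measurable_uncurry_of_continuous_of_measurable
    · intro ω
      have := hB.cont ω
      fun_prop
    · intro r
      exact (hB.meas _).sub_const _
  exact hW.comp measurable_swap

lemma lam_meas (hB : GoodBM B P) {f : ℝ → ℝ} (hf : Continuous f) (a b : ℝ) (m : ℕ) (k : ℤ) :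
    Measurable (fun ω => lam (fun r => B r.toNNReal ω - f r) a b m k) := by
  unfold lam
  apply Measurable.const_mul
  have hg : Measurable (Function.uncurry (fun (ω : Ω) (r : ℝ) =>
      win (del m) (k * del m) (B r.toNNReal ω - f r))) := (win_meas _ _).comp (path_meas hB hf)
  have h5 : ∀ c d : ℝ, Measurable (fun ω => ∫ r in Ioc c d,
      win (del m) (k * del m) (B r.toNNReal ω - f r)) :=
    fun c d => (hg.stronglyMeasurable.integral_prod_right
      (ν := volume.restrict (Ioc c d))).measurable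
  unfold intervalIntegral
  exact (h5 _ _).sub (h5 _ _)

lemma lam_abs_le (X : ℝ → ℝ) {a b : ℝ} (hab : a ≤ b) (m : ℕ) (k : ℤ) :
    |lam X a b m k| ≤ 2 ^ m * (b - a) := by
  unfold lam
  rw [abs_mul, abs_of_pos (by positivity : (0:ℝ) < 2 ^ m)]
  have := abs_functional_le (g := fun r => win (del m) (k * del m) (X r)) (M := 1)
    (fun _ => win_abs_le _ _ _) hab
  rw [one_mul] at this
  gcongr

lemma int_bdd [IsProbabilityMeasure P] {g : Ω → ℝ} (hg : Measurable g) {M : ℝ}
    (hM : ∀ ω, |g ω| ≤ M) : Integrable g P :=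
  Integrable.of_bound hg.aestronglyMeasurable M
    (ae_of_all _ fun ω => by rw [Real.norm_eq_abs]; exact hM ω)

/-- number of indices -/
noncomputable def idx (K : ℕ) (m : ℕ) : Finset (ℕ × ℕ × ℤ) :=
  Finset.range (m + 1) ×ˢ (Finset.range (2 ^ m) ×ˢ Finset.Icc (-(K * 2 ^ m : ℤ)) (K * 2 ^ m))

lemma idx_card (K m : ℕ) : ((idx K m).card : ℝ) ≤ (2 * K + 1) * 8 ^ m := by
  unfold idx
  rw [Finset.card_product, Finset.card_product, Finset.card_range, Finset.card_range,
    Int.card_Icc]
  have hcard : ((K * 2 ^ m + 1 - -(K * 2 ^ m) : ℤ)).toNat = 2 * K * 2 ^ m + 1 := by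
    have : (K * 2 ^ m + 1 - -(K * 2 ^ m) : ℤ) = ((2 * K * 2 ^ m + 1 : ℕ) : ℤ) := by
      push_cast; ring
    rw [this, Int.toNat_natCast]
  rw [hcard]
  have h1 : m + 1 ≤ 2 ^ m := Nat.lt_two_pow_self
  have h2 : 2 * K * 2 ^ m + 1 ≤ (2 * K + 1) * 2 ^ m := by
    have : 1 ≤ 2 ^ m := Nat.one_le_two_pow
    nlinarith
  have h3 : (m + 1) * (2 ^ m * (2 * K * 2 ^ m + 1)) ≤ (2 * K + 1) * 8 ^ m := by
    calc (m + 1) * (2 ^ m * (2 * K * 2 ^ m + 1)) ≤ 2 ^ m * (2 ^ m * ((2 * K + 1) * 2 ^ m)) := by
          gcongr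
      _ = (2 * K + 1) * (2 * 2 * 2) ^ m := by rw [mul_pow, mul_pow]; ring
      _ = _ := by norm_num
  exact_mod_cast h3

lemma summ (K : ℕ) (c : ℝ) (hc : 0 ≤ c) :
    Summable (fun m => ((idx K m).card : ℝ) * (c * del m ^ 4)) := by
  have h1 : Summable (fun m : ℕ => (2 * K + 1) * c * (1 / 2 : ℝ) ^ m) :=
    (summable_geometric_two).mul_left _
  refine Summable.of_nonneg_of_le (fun m => ?_) (fun m => ?_) h1
  · have := del_pos m
    positivity
  · have h2 : del m ^ 4 = (1 / 16 : ℝ) ^ m := by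
      unfold del
      rw [inv_pow, ← pow_mul, mul_comm, pow_mul, one_div, inv_pow]; norm_num
    calc ((idx K m).card : ℝ) * (c * del m ^ 4) ≤ ((2 * K + 1) * 8 ^ m) * (c * del m ^ 4) := by
          apply mul_le_mul_of_nonneg_right (idx_card K m)
          have := del_pos m
          positivity
      _ = (2 * K + 1) * c * (8 ^ m * (1 / 16 : ℝ) ^ m) := by rw [h2]; ring
      _ = _ := by rw [← mul_pow]; norm_num

lemma pow_bound {t z : ℝ} {N : ℕ} (hN : N ≠ 0) (hev : Even N) (h : t ^ N ≤ z) :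
    |t| ≤ max 1 z := by
  by_cases h1 : |t| ≤ 1
  · exact h1.trans (le_max_left _ _)
  · push Not at h1
    refine le_trans ?_ (le_max_right _ _)
    rw [← hev.pow_abs] at h
    exact (le_self_pow₀ h1.le hN).trans h

lemma lam_zero_of {X : ℝ → ℝ} {a b : ℝ} (hab : a ≤ b) {m : ℕ} {k : ℤ}
    (h : ∀ r ∈ Icc a b, X r ∉ Ico (k * del m) (k * del m + del m)) : lam X a b m k = 0 := by
  unfold lam
  have : ∫ r in a..b, win (del m) (k * del m) (X r) = ∫ r in a..b, (0:ℝ) := by
    refine intervalIntegral.integral_congr fun r hr => ?_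
    rw [uIcc_of_le hab] at hr
    unfold win
    exact indicator_of_notMem (h r hr) _
  rw [this]; simp

theorem hyp_as (hB : GoodBM B P) {f : ℝ → ℝ} (hf : Continuous f) (i : ℕ) :
    ∀ᵐ ω ∂P, ∃ C : ℝ, 0 < C ∧
      Hyp (fun r => B r.toNNReal ω - f r) (1 / 2 - 1 / ((i : ℝ) + 3)) C := by
  have hP := hB.prob
  set e : ℝ := (i : ℝ) + 3 with he
  have he0 : 0 < e := by positivity
  have he3 : 3 ≤ e := by rw [he]; have : (0:ℝ) ≤ i := Nat.cast_nonneg i; linarith
  have hie : 1 / e ≤ 1 / 3 := one_div_le_one_div_of_le (by norm_num) he3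
  have hie0 : 0 < 1 / e := by positivity
  set α : ℝ := 1 / 2 - 1 / e with hα
  set β : ℝ := 1 - 1 / e with hβ
  have hβ0 : 0 ≤ β := by rw [hβ]; linarith
  have hβ1 : β < 1 := by rw [hβ]; linarith
  obtain ⟨N, hN⟩ : ∃ N : ℕ, N = 8 * (i + 3) := ⟨_, rfl⟩
  have hN0 : N ≠ 0 := by omega
  have hNe : Even N := ⟨4 * (i + 3), by omega⟩
  have hNr : (N : ℝ) = 8 * e := by rw [hN, he]; push_cast; ring
  set X : Ω → ℝ → ℝ := fun ω r => B r.toNNReal ω - f r with hX
  -- powers
  have hpow1 : ∀ m, ((2 : ℝ) ^ m * (del m * del m ^ (β / 2)) / del m ^ α) ^ N = del m ^ 4 := by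
    intro m
    have hd := del_pos m
    have e1 : (2 : ℝ) ^ m * (del m * del m ^ (β / 2)) / del m ^ α = del m ^ (1 / (2 * e)) := by
      rw [← mul_assoc, two_pow_mul_del, one_mul, ← Real.rpow_sub hd]
      congr 1
      rw [hα, hβ]; field_simp; ring
    rw [e1, ← Real.rpow_natCast, ← Real.rpow_mul hd.le, hNr]
    have : 1 / (2 * e) * (8 * e) = ((4 : ℕ) : ℝ) := by push_cast; field_simp; norm_num
    rw [this, Real.rpow_natCast]
  have hpow2 : ∀ m, ((2 : ℝ) ^ m * (2 * del m * √(del m)) / del m ^ α) ^ N ≤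
      2 ^ N * del m ^ 4 := by
    intro m
    have hd := del_pos m
    have e1 : (2 : ℝ) ^ m * (2 * del m * √(del m)) / del m ^ α = 2 * del m ^ (1 / e) := by
      rw [Real.sqrt_eq_rpow]
      have : (2 : ℝ) ^ m * (2 * del m * del m ^ (1 / 2 : ℝ)) / del m ^ α =
        2 * (2 ^ m * del m) * (del m ^ (1 / 2 : ℝ) / del m ^ α) := by ring
      rw [this, two_pow_mul_del, mul_one, ← Real.rpow_sub hd]
      congr 2
      rw [hα]; ring
    rw [e1, mul_pow, ← Real.rpow_natCast (del m ^ (1 / e)), ← Real.rpow_mul hd.le, hNr]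
    have : 1 / e * (8 * e) = ((8 : ℕ) : ℝ) := by push_cast; field_simp
    rw [this, Real.rpow_natCast]
    have h8 : del m ^ 8 ≤ del m ^ 4 := pow_le_pow_of_le_one hd.le (del_le_one m) (by norm_num)
    gcongr
  -- random variables
  set D : ℕ → (ℕ × ℕ × ℤ) → Ω → ℝ := fun m s ω =>
    ((lam (X ω) (s.2.1 * del s.1) (s.2.1 * del s.1 + del s.1) m (s.2.2 + 1) -
      lam (X ω) (s.2.1 * del s.1) (s.2.1 * del s.1 + del s.1) m s.2.2) / del m ^ α) ^ N with hD
  set E : ℕ → (ℕ × ℕ × ℤ) → Ω → ℝ := fun m s ω =>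
    (lam (X ω) (s.2.1 * del m) (s.2.1 * del m + del m) m s.2.2 / del m ^ α) ^ N with hE
  have hDi : ∀ m s, Integrable (D m s) P := by
    intro m s
    have hm : Measurable (D m s) := by
      apply Measurable.pow_const
      apply Measurable.div_const
      exact (lam_meas hB hf _ _ _ _).sub (lam_meas hB hf _ _ _ _)
    refine int_bdd hm (M := ((2 ^ m * (del s.1) + 2 ^ m * (del s.1)) / del m ^ α) ^ N) fun ω => ?_
    rw [hD]
    simp only
    rw [abs_pow, abs_div, abs_of_pos (Real.rpow_pos_of_pos (del_pos m) α)]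
    have hd := del_pos m
    have hds := del_pos s.1
    gcongr
    refine (abs_sub _ _).trans ?_
    have h1 := lam_abs_le (X ω) (a := s.2.1 * del s.1) (b := s.2.1 * del s.1 + del s.1)
      (by linarith) m (s.2.2 + 1)
    have h2 := lam_abs_le (X ω) (a := s.2.1 * del s.1) (b := s.2.1 * del s.1 + del s.1)
      (by linarith) m s.2.2
    rw [add_sub_cancel_left] at h1 h2
    linarith
  have hEi : ∀ m s, Integrable (E m s) P := by
    intro m s
    have hm : Measurable (E m s) := by
      apply Measurable.pow_const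
      apply Measurable.div_const
      exact (lam_meas hB hf _ _ _ _)
    refine int_bdd hm (M := ((2 ^ m * (del m)) / del m ^ α) ^ N) fun ω => ?_
    rw [hE]
    simp only
    rw [abs_pow, abs_div, abs_of_pos (Real.rpow_pos_of_pos (del_pos m) α)]
    have hd := del_pos m
    gcongr
    have h1 := lam_abs_le (X ω) (a := s.2.1 * del m) (b := s.2.1 * del m + del m)
      (by linarith) m (s.2.2)
    rwa [add_sub_cancel_left] at h1
  set c1 : ℝ := (N.factorial : ℝ) * (4 / (1 - β) + 2) ^ N with hc1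
  set c2 : ℝ := (N.factorial : ℝ) * 2 ^ N with hc2
  have hc10 : 0 ≤ c1 := by
    have : 0 < 1 - β := by linarith
    positivity
  have hc20 : 0 ≤ c2 := by positivity
  have hDa : ∀ m s, ∫ ω, D m s ω ∂P ≤ c1 * del m ^ 4 := by
    intro m s
    have hd := del_pos m
    have hds := del_pos s.1
    have h1 := moment_diff' hβ0 hβ1 (del_pos m) (del_le_one m) N hB
      (f := fun r => s.2.2 * del m + f r) (by have := hf.measurable; fun_prop)
      (a := s.2.1 * del s.1) (b := del s.1) (by positivity) hds.le (del_le_one _)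
    have e1 : ∀ ω, D m s ω = (2 ^ m / del m ^ α) ^ N *
        (∫ r in (s.2.1 * del s.1)..(s.2.1 * del s.1 + del s.1),
          psi (del m) (s.2.2 * del m + f r) (B r.toNNReal ω)) ^ N := by
      intro ω
      simp only [hD, lam]
      rw [← mul_sub, ← intervalIntegral.integral_sub, ← mul_pow]
      · congr 1
        rw [mul_div_right_comm]
        congr 1
        refine intervalIntegral.integral_congr fun r _ => ?_
        simp only [hX]
        rw [psi_eq_win]
        congr 2
        push_cast; ring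
      · exact win_ii ((path_meas hB hf).comp measurable_prodMk_left) _ _ _ _
      · exact win_ii ((path_meas hB hf).comp measurable_prodMk_left) _ _ _ _
    simp_rw [e1]
    rw [integral_const_mul]
    calc _ ≤ (2 ^ m / del m ^ α) ^ N * (c1 * (del m * del m ^ (β / 2)) ^ N) := by
          apply mul_le_mul_of_nonneg_left _ (by positivity)
          exact (le_abs_self _).trans h1
      _ = c1 * ((2 : ℝ) ^ m * (del m * del m ^ (β / 2)) / del m ^ α) ^ N := by
          rw [div_pow, div_pow, mul_pow (2 ^ m : ℝ)]; ring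
      _ = _ := by rw [hpow1]
  have hEa : ∀ m s, ∫ ω, E m s ω ∂P ≤ c2 * del m ^ 4 := by
    intro m s
    have hd := del_pos m
    have h1 := moment_pos' (del_pos m) N hB
      (f := fun r => s.2.2 * del m + f r) (by have := hf.measurable; fun_prop)
      (a := s.2.1 * del m) (b := del m) (by positivity) hd.le
    have e1 : ∀ ω, E m s ω = (2 ^ m / del m ^ α) ^ N *
        (∫ r in (s.2.1 * del m)..(s.2.1 * del m + del m),
          win (del m) (s.2.2 * del m + f r) (B r.toNNReal ω)) ^ N := by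
      intro ω
      simp only [hE, lam]
      rw [← mul_pow]
      congr 1
      rw [mul_div_right_comm]
      congr 1
      refine intervalIntegral.integral_congr fun r _ => ?_
      simp only [hX]
      rw [win_shift]
    simp_rw [e1]
    rw [integral_const_mul]
    calc _ ≤ (2 ^ m / del m ^ α) ^ N * ((N.factorial : ℝ) * (2 * del m * √(del m)) ^ N) := by
          apply mul_le_mul_of_nonneg_left _ (by positivity)
          exact (le_abs_self _).trans h1
      _ = (N.factorial : ℝ) * ((2 : ℝ) ^ m * (2 * del m * √(del m)) / del m ^ α) ^ N := by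
          rw [div_pow, div_pow, mul_pow (2 ^ m : ℝ)]; ring
      _ ≤ (N.factorial : ℝ) * (2 ^ N * del m ^ 4) := by
          gcongr
          exact hpow2 m
      _ = _ := by rw [hc2]; ring
  have hAll : ∀ᵐ ω ∂P, ∀ K : ℕ, (∃ z : ℝ, ∀ m, ∀ s ∈ idx K m, D m s ω ≤ z) ∧
      (∃ z : ℝ, ∀ m, ∀ s ∈ idx K m, E m s ω ≤ z) := by
    rw [ae_all_iff]
    intro K
    have a1 := sum_as D (idx K) (fun m s ω => hNe.pow_nonneg _) hDi (fun m => c1 * del m ^ 4)
      (fun m s _ => hDa m s) (summ K c1 hc10) (fun m => by have := del_pos m; positivity)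
    have a2 := sum_as E (idx K) (fun m s ω => hNe.pow_nonneg _) hEi (fun m => c2 * del m ^ 4)
      (fun m s _ => hEa m s) (summ K c2 hc20) (fun m => by have := del_pos m; positivity)
    filter_upwards [a1, a2] with ω b1 b2
    exact ⟨b1, b2⟩
  filter_upwards [hAll] with ω hω
  have hXc : Continuous (X ω) := by
    have := hB.cont ω
    simp only [hX]
    fun_prop
  obtain ⟨K, hK⟩ : ∃ K : ℕ, ∀ r ∈ Icc (0:ℝ) 1, |X ω r| + 1 ≤ K := by
    obtain ⟨C', hC'⟩ := isCompact_Icc.exists_bound_of_continuousOn (s := Icc (0:ℝ) 1)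
      hXc.continuousOn
    obtain ⟨K, hK⟩ := exists_nat_ge (C' + 1)
    exact ⟨K, fun r hr => by have := hC' r hr; rw [Real.norm_eq_abs] at this; linarith⟩
  obtain ⟨⟨z1, hz1⟩, ⟨z2, hz2⟩⟩ := hω K
  -- intervals are inside [0,1]
  have hin : ∀ n j : ℕ, j < 2 ^ n → ∀ r ∈ Icc (j * del n) (j * del n + del n),
      r ∈ Icc (0:ℝ) 1 := by
    intro n j hj r hr
    have hd := del_pos n
    constructor
    · exact le_trans (by positivity) hr.1
    · refine hr.2.trans ?_
      have h1 : ((j : ℝ) + 1) ≤ 2 ^ n := by exact_mod_cast hj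
      calc (j : ℝ) * del n + del n = (j + 1) * del n := by ring
        _ ≤ 2 ^ n * del n := by gcongr
        _ = 1 := two_pow_mul_del n
  -- vanishing outside the range
  have hvan : ∀ n j m : ℕ, ∀ k : ℤ, j < 2 ^ n → (K * 2 ^ m < k ∨ k ≤ -(K * 2 ^ m)) →
      lam (X ω) (j * del n) (j * del n + del n) m k = 0 := by
    intro n j m k hj hk
    have hd := del_pos n
    apply lam_zero_of (by linarith)
    intro r hr hmem
    have h1 := hK r (hin n j hj r hr)
    have hdm := del_pos m
    have h2 := abs_le.1 (by linarith : |X ω r| ≤ (K : ℝ) - 1)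
    rcases hk with hk | hk
    · have h3 : (K * 2 ^ m : ℝ) ≤ k := by exact_mod_cast hk.le
      have h4 : (K * 2 ^ m : ℝ) * del m ≤ k * del m := by gcongr
      rw [mul_assoc, two_pow_mul_del, mul_one] at h4
      linarith [hmem.1, h2.2]
    · have h3 : (k : ℝ) ≤ -(K * 2 ^ m) := by exact_mod_cast hk
      have h4 : (k : ℝ) * del m ≤ -(K * 2 ^ m) * del m := by gcongr
      rw [neg_mul, mul_assoc, two_pow_mul_del, mul_one] at h4
      linarith [hmem.2, h2.1, del_le_one m]
  refine ⟨max (max 1 z1) (max 1 z2), by positivity, ?_, ?_⟩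
  · intro n j m k hnm hj
    have hdm := del_pos m
    by_cases hk : k ∈ Finset.Icc (-(K * 2 ^ m : ℤ)) (K * 2 ^ m)
    · have hs : (n, j, k) ∈ idx K m := by
        unfold idx
        simp only [Finset.mem_product, Finset.mem_range]
        exact ⟨by omega, lt_of_lt_of_le hj (Nat.pow_le_pow_right (by norm_num) hnm), hk⟩
      have h1 := pow_bound hN0 hNe (hz1 m _ hs)
      rw [abs_div, abs_of_pos (Real.rpow_pos_of_pos hdm α), div_le_iff₀
        (Real.rpow_pos_of_pos hdm α)] at h1
      refine h1.trans ?_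
      have : max 1 z1 ≤ max (max 1 z1) (max 1 z2) := le_max_left _ _
      gcongr
    · rw [Finset.mem_Icc, not_and_or] at hk
      have e1 : lam (X ω) (j * del n) (j * del n + del n) m k = 0 := by
        apply hvan n j m k hj
        rcases hk with hk | hk
        · right; omega
        · left; omega
      have e2 : lam (X ω) (j * del n) (j * del n + del n) m (k + 1) = 0 := by
        apply hvan n j m (k + 1) hj
        rcases hk with hk | hk
        · right; omega
        · left; omega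
      change |lam (X ω) (j * del n) (j * del n + del n) m (k + 1) -
        lam (X ω) (j * del n) (j * del n + del n) m k| ≤ _
      rw [e1, e2, sub_zero, abs_zero]
      positivity
  · intro n j k hj
    have hdm := del_pos n
    by_cases hk : k ∈ Finset.Icc (-(K * 2 ^ n : ℤ)) (K * 2 ^ n)
    · have hs : (n, j, k) ∈ idx K n := by
        unfold idx
        simp only [Finset.mem_product, Finset.mem_range]
        exact ⟨by omega, hj, hk⟩
      have h1 := pow_bound hN0 hNe (hz2 n _ hs)
      rw [abs_div, abs_of_pos (Real.rpow_pos_of_pos hdm α), div_le_iff₀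
        (Real.rpow_pos_of_pos hdm α)] at h1
      refine (le_abs_self _).trans (h1.trans ?_)
      have : max 1 z2 ≤ max (max 1 z1) (max 1 z2) := le_max_right _ _
      gcongr
    · rw [Finset.mem_Icc, not_and_or] at hk
      have e1 : lam (X ω) (j * del n) (j * del n + del n) n k = 0 := by
        apply hvan n j n k hj
        rcases hk with hk | hk
        · right; omega
        · left; omega
      change lam (X ω) (j * del n) (j * del n + del n) n k ≤ _
      rw [e1]
      positivity

end H316.LT
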