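import Pool.Agent.H316R3.LT.Mom

open MeasureTheory ProbabilityTheory Set Filter Topology
open scoped NNReal ENNReal

namespace H316.LT

variable {Ω : Type*} {mΩ : MeasurableSpace Ω} {P : Measure Ω}

lemma int_rpow_le {β : ℝ} (hβ1 : β < 1) {b : ℝ} (hb : 0 ≤ b) (hb1 : b ≤ 1) :
    ∫ s in (0:ℝ)..b, s ^ (-(1 + β) / 2) ≤ 2 / (1 - β) := by
  rw [integral_rpow (Or.inl (by linarith))]
  have h1 : -(1 + β) / 2 + 1 = (1 - β) / 2 := by ring
  rw [h1, Real.zero_rpow (by linarith), sub_zero]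
  have h2 : b ^ ((1 - β) / 2) ≤ 1 := Real.rpow_le_one hb hb1 (by linarith)
  rw [div_le_iff₀ (by linarith)]
  have h3 : 2 / (1 - β) * ((1 - β) / 2) = 1 := by
    have : 1 - β ≠ 0 := by linarith
    field_simp
  rw [h3]; exact h2

lemma inv_sqrt_eq {s : ℝ} (hs : 0 ≤ s) : (√s)⁻¹ = s ^ (-(1 / 2) : ℝ) := by
  rw [Real.rpow_neg hs, Real.sqrt_eq_rpow]

lemma int_sqrt {b : ℝ} (hb : 0 ≤ b) : ∫ s in (0:ℝ)..b, (√s)⁻¹ = 2 * √b := by
  have h1 : ∫ s in (0:ℝ)..b, (√s)⁻¹ = ∫ s in (0:ℝ)..b, s ^ (-(1 / 2) : ℝ) := by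
    refine intervalIntegral.integral_congr fun s hs => ?_
    rw [uIcc_of_le hb] at hs
    exact inv_sqrt_eq hs.1
  rw [h1, integral_rpow (Or.inl (by norm_num))]
  have h2 : (-(1 / 2) + 1 : ℝ) = 1 / 2 := by norm_num
  rw [h2, Real.zero_rpow (by norm_num), ← Real.sqrt_eq_rpow]
  ring

lemma ii_sqrt {b : ℝ} (hb : 0 ≤ b) : IntervalIntegrable (fun s : ℝ => (√s)⁻¹) volume 0 b := by
  have h := intervalIntegral.intervalIntegrable_rpow' (a := 0) (b := b)
    (r := (-(1 / 2) : ℝ)) (by norm_num)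
  refine h.congr (fun s hs => ?_)
  rw [uIoc_of_le hb] at hs
  exact (inv_sqrt_eq hs.1.le).symm

lemma ii_rpow {β : ℝ} (hβ1 : β < 1) {b : ℝ} :
    IntervalIntegrable (fun s : ℝ => s ^ (-(1 + β) / 2)) volume 0 b :=
  intervalIntegral.intervalIntegrable_rpow' (by linarith)

lemma inner_meas {B : ℝ≥0 → Ω → ℝ} (hB : GoodBM B P) {Ψ : ℝ → ℝ → ℝ}
    (hΨ : Measurable (Function.uncurry Ψ)) {b : ℝ} (hb : 0 ≤ b) (N : ℕ) :
    Measurable (fun w : ℝ => ∫ ω, (∫ r in (0:ℝ)..b, Ψ r (w + B r.toNNReal ω)) ^ N ∂P) := by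
  have hP := hB.prob
  have hW : Measurable (Function.uncurry (fun (r : ℝ) (ω : Ω) => B r.toNNReal ω)) := by
    apply measurable_uncurry_of_continuous_of_measurable
    · intro ω
      have := hB.cont ω
      fun_prop
    · intro r
      exact hB.meas _
  exact ((meas_functional hW hΨ hb).pow_const N).stronglyMeasurable.integral_prod_right.measurable

theorem moment_diff {β : ℝ} (hβ0 : 0 ≤ β) (hβ1 : β < 1) {h : ℝ} (hh : 0 < h) (hh1 : h ≤ 1)
    (N : ℕ) : ∀ (B : ℝ≥0 → Ω → ℝ), GoodBM B P → ∀ f : ℝ → ℝ, Measurable f →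
    ∀ b : ℝ, 0 ≤ b → b ≤ 1 → ∀ x : ℝ,
    |∫ ω, (∫ r in (0:ℝ)..b, psi h (f r) (x + B r.toNNReal ω)) ^ N ∂P| ≤
      (N.factorial : ℝ) * (4 / (1 - β) + 2) ^ N * (h * h ^ (β / 2)) ^ N ∧
    |∫ ω, (∫ r in (0:ℝ)..b, psi h (f r) (x + h + B r.toNNReal ω)) ^ N ∂P -
      ∫ ω, (∫ r in (0:ℝ)..b, psi h (f r) (x + B r.toNNReal ω)) ^ N ∂P| ≤
      (N.factorial : ℝ) * (4 / (1 - β) + 2) ^ N * (h * h ^ (β / 2)) ^ N * h ^ (β / 2) := by
  have hK : 0 < 1 - β := by linarith
  induction N with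
  | zero =>
    intro B hB f hf b hb hb1 x
    have hP := hB.prob
    simp only [pow_zero, integral_const, probReal_univ, smul_eq_mul, mul_one, abs_one,
      Nat.factorial_zero, Nat.cast_one, le_refl, sub_self, abs_zero, one_mul, true_and]
    positivity
  | succ N ih =>
    intro B hB f hf b hb hb1 x
    have hP := hB.prob
    set C : ℝ := (N.factorial : ℝ) * (4 / (1 - β) + 2) ^ N * (h * h ^ (β / 2)) ^ N with hC
    have hC0 : 0 ≤ C := by positivity
    have hΨ : Measurable (Function.uncurry (fun r u => psi h (f r) u)) := by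
      have : Measurable (fun p : ℝ × ℝ => (f p.1, p.2)) := by fun_prop
      exact (psi_meas2 h).comp this
    have hrec := fun x => recursion hB hΨ (M := 1) (fun r u => psi_abs_le h (f r) u) hb N x
    set T : ℝ → ℝ → ℝ := fun x s => ∫ z, psi h (f s) (x + z) * (∫ ω, (∫ r in (0:ℝ)..(b - s),
      psi h (f (s + r)) ((x + z) + (B (s.toNNReal + r.toNNReal) ω - B s.toNNReal ω))) ^ N ∂P)
        ∂(gaussianReal 0 s.toNNReal) with hT
    -- inner function
    have hg : ∀ s ∈ Ioc 0 b, ∃ g : ℝ → ℝ, Measurable g ∧ (∀ z, |g z| ≤ C) ∧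
        (∀ z, |g (z + h) - g z| ≤ C * h ^ (β / 2)) ∧
        ∀ x, T x s = ∫ z, psi h (f s) (x + z) * g (x + z) ∂(gaussianReal 0 s.toNNReal) := by
      intro s hs
      have hBs := hB.shift s.toNNReal
      have hfs : Measurable (fun r => f (s + r)) := by fun_prop
      have ih1 := ih _ hBs (fun r => f (s + r)) hfs (b - s) (by linarith [hs.2])
        (by linarith [hs.1])
      refine ⟨fun w => ∫ ω, (∫ r in (0:ℝ)..(b - s),
        psi h (f (s + r)) (w + (B (s.toNNReal + r.toNNReal) ω - B s.toNNReal ω))) ^ N ∂P,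
        ?_, fun z => (ih1 z).1, fun z => (ih1 z).2, fun x => rfl⟩
      have hΨs : Measurable (Function.uncurry (fun r u => psi h (f (s + r)) u)) := by
        have : Measurable (fun p : ℝ × ℝ => (f (s + p.1), p.2)) := by fun_prop
        exact (psi_meas2 h).comp this
      exact inner_meas hBs hΨs (by linarith [hs.2]) N
    have hT1 : ∀ x, ∀ s ∈ Ioc 0 b, |T x s| ≤
        h * (C * h ^ β) * s ^ (-(1 + β) / 2) + h * (C * h ^ (β / 2)) * (√s)⁻¹ := by
      intro x s hs
      obtain ⟨g, hgm, hg1, hg2, hg3⟩ := hg s hs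
      have hv : 0 < s.toNNReal := Real.toNNReal_pos.2 hs.1
      have := step_bound hv hgm hβ0 hβ1.le hh hg1 hg2 (f s) x
      rw [Real.coe_toNNReal s hs.1.le] at this
      rw [hg3 x]
      refine this.trans (le_of_eq ?_)
      ring
    have hT2 : ∀ x, ∀ s ∈ Ioc 0 b, |T (x + h) s - T x s| ≤
        h * (2 * C * h ^ β) * s ^ (-(1 + β) / 2) := by
      intro x s hs
      obtain ⟨g, hgm, hg1, hg2, hg3⟩ := hg s hs
      have hv : 0 < s.toNNReal := Real.toNNReal_pos.2 hs.1
      have := step_diff hv hgm hβ0 hβ1.le hh hg1 (f s) x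
      rw [Real.coe_toNNReal s hs.1.le] at this
      rw [hg3 x, hg3 (x + h)]
      refine this.trans (le_of_eq ?_)
      ring
    have hhb : h ^ β = h ^ (β / 2) * h ^ (β / 2) := by
      rw [← Real.rpow_add hh]; congr 1; ring
    have hhb1 : h ^ (β / 2) ≤ 1 := Real.rpow_le_one hh.le hh1 (by linarith)
    have hhb0 : 0 ≤ h ^ (β / 2) := by positivity
    have hfac : (((N + 1).factorial : ℕ) : ℝ) = (N + 1) * (N.factorial : ℝ) := by
      rw [Nat.factorial_succ]; push_cast; ring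
    have i1 := int_rpow_le hβ1 hb hb1
    have i2 : ∫ s in (0:ℝ)..b, (√s)⁻¹ ≤ 2 := by
      rw [int_sqrt hb]
      have : √b ≤ 1 := Real.sqrt_le_one.2 hb1
      linarith
    constructor
    · rw [(hrec x).2]
      have h1 := intervalIntegral.norm_integral_le_of_norm_le (μ := volume) hb
        (f := fun s => T x s)
        (g := fun s => h * (C * h ^ β) * s ^ (-(1 + β) / 2) + h * (C * h ^ (β / 2)) * (√s)⁻¹)
        (ae_of_all _ fun s hs => by rw [Real.norm_eq_abs]; exact hT1 x s hs)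
        (((ii_rpow hβ1).const_mul _).add ((ii_sqrt hb).const_mul _))
      rw [intervalIntegral.integral_add ((ii_rpow hβ1).const_mul _) ((ii_sqrt hb).const_mul _),
        intervalIntegral.integral_const_mul, intervalIntegral.integral_const_mul,
        Real.norm_eq_abs] at h1
      rw [abs_mul, abs_of_nonneg (by positivity : (0:ℝ) ≤ N + 1)]
      have h2 : |∫ s in (0:ℝ)..b, T x s| ≤
          (h * h ^ (β / 2)) * C * (4 / (1 - β) + 2) := by
        refine h1.trans ?_
        calc _ ≤ h * (C * h ^ β) * (2 / (1 - β)) + h * (C * h ^ (β / 2)) * 2 := by gcongr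
          _ ≤ h * (C * h ^ (β / 2)) * (4 / (1 - β)) + h * (C * h ^ (β / 2)) * 2 := by
            have h3 : h ^ β ≤ h ^ (β / 2) := by
              rw [hhb]; nlinarith
            have h4 : 2 / (1 - β) ≤ 4 / (1 - β) := by
              gcongr; norm_num
            gcongr
          _ = _ := by ring
      refine (mul_le_mul_of_nonneg_left h2 (by positivity)).trans (le_of_eq ?_)
      rw [hfac, hC]; ring
    · rw [(hrec (x + h)).2, (hrec x).2, ← mul_sub,
        ← intervalIntegral.integral_sub (hrec (x + h)).1 (hrec x).1]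
      have h1 := intervalIntegral.norm_integral_le_of_norm_le (μ := volume) hb
        (f := fun s => T (x + h) s - T x s)
        (g := fun s => h * (2 * C * h ^ β) * s ^ (-(1 + β) / 2))
        (ae_of_all _ fun s hs => by rw [Real.norm_eq_abs]; exact hT2 x s hs)
        ((ii_rpow hβ1).const_mul _)
      rw [intervalIntegral.integral_const_mul, Real.norm_eq_abs] at h1
      rw [abs_mul, abs_of_nonneg (by positivity : (0:ℝ) ≤ N + 1)]
      have h2 : |∫ s in (0:ℝ)..b, (T (x + h) s - T x s)| ≤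
          (h * h ^ (β / 2)) * C * (4 / (1 - β) + 2) * h ^ (β / 2) := by
        refine h1.trans ?_
        calc _ ≤ h * (2 * C * h ^ β) * (2 / (1 - β)) := by gcongr
          _ = (h * h ^ (β / 2)) * C * (4 / (1 - β)) * h ^ (β / 2) := by rw [hhb]; ring
          _ ≤ _ := by gcongr; linarith
      refine (mul_le_mul_of_nonneg_left h2 (by positivity)).trans (le_of_eq ?_)
      rw [hfac, hC]; ring

/-- indicator of a window -/
noncomputable def win (h c u : ℝ) : ℝ := (Ico c (c + h)).indicator 1 u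

lemma win_meas2 (h : ℝ) : Measurable (fun p : ℝ × ℝ => win h p.1 p.2) := by
  have h1 : (fun p : ℝ × ℝ => win h p.1 p.2) = fun p : ℝ × ℝ =>
      ({p : ℝ × ℝ | p.1 ≤ p.2 ∧ p.2 < p.1 + h}).indicator (fun _ => (1 : ℝ)) p := by
    funext p
    simp only [win, indicator, mem_Ico, mem_ofPred_eq, Pi.one_apply]
  rw [h1]
  apply Measurable.indicator measurable_const
  exact (measurableSet_le (f := fun p : ℝ × ℝ => p.1) (g := fun p => p.2)
      (by fun_prop) (by fun_prop)).inter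
      (measurableSet_lt (f := fun p : ℝ × ℝ => p.2) (g := fun p => p.1 + h)
      (by fun_prop) (by fun_prop))

lemma win_abs_le (h c u : ℝ) : |win h c u| ≤ 1 := by
  unfold win indicator
  split_ifs <;> simp

theorem moment_pos {h : ℝ} (hh : 0 < h)
    (N : ℕ) : ∀ (B : ℝ≥0 → Ω → ℝ), GoodBM B P → ∀ f : ℝ → ℝ, Measurable f →
    ∀ b : ℝ, 0 ≤ b → ∀ x : ℝ,
    |∫ ω, (∫ r in (0:ℝ)..b, win h (f r) (x + B r.toNNReal ω)) ^ N ∂P| ≤
      (N.factorial : ℝ) * (2 * h * √b) ^ N := by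
  induction N with
  | zero =>
    intro B hB f hf b hb x
    have hP := hB.prob
    simp
  | succ N ih =>
    intro B hB f hf b hb x
    have hP := hB.prob
    set C : ℝ := (N.factorial : ℝ) * (2 * h * √b) ^ N with hC
    have hC0 : 0 ≤ C := by positivity
    have hΨ : Measurable (Function.uncurry (fun r u => win h (f r) u)) := by
      have : Measurable (fun p : ℝ × ℝ => (f p.1, p.2)) := by fun_prop
      exact (win_meas2 h).comp this
    have hrec := recursion hB hΨ (M := 1) (fun r u => win_abs_le h (f r) u) hb N x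
    set T : ℝ → ℝ := fun s => ∫ z, win h (f s) (x + z) * (∫ ω, (∫ r in (0:ℝ)..(b - s),
      win h (f (s + r)) ((x + z) + (B (s.toNNReal + r.toNNReal) ω - B s.toNNReal ω))) ^ N ∂P)
        ∂(gaussianReal 0 s.toNNReal) with hT
    have hT1 : ∀ s ∈ Ioc 0 b, |T s| ≤ h * C * (√s)⁻¹ := by
      intro s hs
      have hv : 0 < s.toNNReal := Real.toNNReal_pos.2 hs.1
      have hBs := hB.shift s.toNNReal
      have hfs : Measurable (fun r => f (s + r)) := by fun_prop
      have ih1 := ih _ hBs (fun r => f (s + r)) hfs (b - s) (by linarith [hs.2])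
      have ih2 : ∀ w, |∫ ω, (∫ r in (0:ℝ)..(b - s),
        win h (f (s + r)) (w + (B (s.toNNReal + r.toNNReal) ω - B s.toNNReal ω))) ^ N ∂P| ≤ C := by
        intro w
        refine (ih1 w).trans ?_
        rw [hC]
        have : √(b - s) ≤ √b := Real.sqrt_le_sqrt (by linarith [hs.1])
        gcongr
      have := step_pos hv hh ih2 (f s) x
      rw [Real.coe_toNNReal s hs.1.le] at this
      refine this.trans (le_of_eq ?_)
      ring
    have hfac : (((N + 1).factorial : ℕ) : ℝ) = (N + 1) * (N.factorial : ℝ) := by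
      rw [Nat.factorial_succ]; push_cast; ring
    rw [hrec.2]
    have h1 := intervalIntegral.norm_integral_le_of_norm_le (μ := volume) hb
      (f := fun s => T s) (g := fun s => h * C * (√s)⁻¹)
      (ae_of_all _ fun s hs => by rw [Real.norm_eq_abs]; exact hT1 s hs)
      ((ii_sqrt hb).const_mul _)
    rw [intervalIntegral.integral_const_mul, int_sqrt hb, Real.norm_eq_abs] at h1
    rw [abs_mul, abs_of_nonneg (by positivity : (0:ℝ) ≤ N + 1)]
    refine (mul_le_mul_of_nonneg_left h1 (by positivity)).trans (le_of_eq ?_)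
    rw [hfac, hC]; ring

lemma shift_eq {B : ℝ≥0 → Ω → ℝ} (hB : GoodBM B P) {Ψ : ℝ → ℝ → ℝ}
    (hΨ : Measurable (Function.uncurry Ψ)) {M : ℝ} (hM : ∀ r u, |Ψ r u| ≤ M)
    {a b : ℝ} (ha : 0 ≤ a) (hb : 0 ≤ b) (N : ℕ) {K : ℝ}
    (hK : ∀ x, |∫ ω, (∫ r in (0:ℝ)..b, Ψ (a + r) (x + (B (a.toNNReal + r.toNNReal) ω -
      B a.toNNReal ω))) ^ N ∂P| ≤ K) :
    |∫ ω, (∫ r in a..(a + b), Ψ r (B r.toNNReal ω)) ^ N ∂P| ≤ K := by
  have hP := hB.prob
  have hm := markov_step hB a.toNNReal (Ψ := fun r u => Ψ (a + r) u) (M := M) (M' := 1)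
      (by
        have : Measurable (fun p : ℝ × ℝ => (a + p.1, p.2)) := by fun_prop
        exact hΨ.comp this)
      (fun r u => hM _ _) (u := fun _ => 1) measurable_const (fun _ => by simp) hb N 0
  simp only [one_mul, zero_add] at hm
  have e : ∀ ω, ∫ r in a..(a + b), Ψ r (B r.toNNReal ω) =
      ∫ r in (0:ℝ)..b, Ψ (a + r) (B (a.toNNReal + r.toNNReal) ω) := by
    intro ω
    have e2 : ∫ r in (0:ℝ)..b, Ψ (a + r) (B (a.toNNReal + r.toNNReal) ω) =
        ∫ r in (0:ℝ)..b, Ψ (a + r) (B ((a + r).toNNReal) ω) := by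
      refine intervalIntegral.integral_congr fun r hr => ?_
      rw [uIcc_of_le hb] at hr
      rw [Real.toNNReal_add ha hr.1]
    rw [e2, intervalIntegral.integral_comp_add_left (fun r => Ψ r (B r.toNNReal ω)), add_zero]
  simp_rw [e]
  rw [hm]
  have hpg : IsProbabilityMeasure (gaussianReal 0 a.toNNReal) := inferInstance
  have h1 := norm_integral_le_of_norm_le_const (μ := gaussianReal 0 a.toNNReal) (C := K)
    (f := fun z => ∫ ω, (∫ r in (0:ℝ)..b, Ψ (a + r) (z + (B (a.toNNReal + r.toNNReal) ω -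
      B a.toNNReal ω))) ^ N ∂P) (ae_of_all _ fun z => by rw [Real.norm_eq_abs]; exact hK z)
  simpa using h1

theorem moment_diff' {β : ℝ} (hβ0 : 0 ≤ β) (hβ1 : β < 1) {h : ℝ} (hh : 0 < h) (hh1 : h ≤ 1)
    (N : ℕ) {B : ℝ≥0 → Ω → ℝ} (hB : GoodBM B P) {f : ℝ → ℝ} (hf : Measurable f)
    {a b : ℝ} (ha : 0 ≤ a) (hb : 0 ≤ b) (hb1 : b ≤ 1) :
    |∫ ω, (∫ r in a..(a + b), psi h (f r) (B r.toNNReal ω)) ^ N ∂P| ≤
      (N.factorial : ℝ) * (4 / (1 - β) + 2) ^ N * (h * h ^ (β / 2)) ^ N := by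
  have hΨ : Measurable (Function.uncurry (fun r u => psi h (f r) u)) := by
    have : Measurable (fun p : ℝ × ℝ => (f p.1, p.2)) := by fun_prop
    exact (psi_meas2 h).comp this
  refine shift_eq hB hΨ (M := 1) (fun r u => psi_abs_le h (f r) u) ha hb N fun x => ?_
  exact (moment_diff hβ0 hβ1 hh hh1 N _ (hB.shift a.toNNReal) (fun r => f (a + r))
    (by fun_prop) b hb hb1 x).1

theorem moment_pos' {h : ℝ} (hh : 0 < h)
    (N : ℕ) {B : ℝ≥0 → Ω → ℝ} (hB : GoodBM B P) {f : ℝ → ℝ} (hf : Measurable f)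
    {a b : ℝ} (ha : 0 ≤ a) (hb : 0 ≤ b) :
    |∫ ω, (∫ r in a..(a + b), win h (f r) (B r.toNNReal ω)) ^ N ∂P| ≤
      (N.factorial : ℝ) * (2 * h * √b) ^ N := by
  have hΨ : Measurable (Function.uncurry (fun r u => win h (f r) u)) := by
    have : Measurable (fun p : ℝ × ℝ => (f p.1, p.2)) := by fun_prop
    exact (win_meas2 h).comp this
  refine shift_eq hB hΨ (M := 1) (fun r u => win_abs_le h (f r) u) ha hb N fun x => ?_
  exact moment_pos hh N _ (hB.shift a.toNNReal) (fun r => f (a + r))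
    (by fun_prop) b hb x

end H316.LT
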