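import Mathlib

open MeasureTheory ProbabilityTheory Set Filter Topology
open scoped NNReal ENNReal unitInterval

namespace H316.LT

/-- Frostman-type lower bound for the Hausdorff dimension of a level set, from approximate local
times. -/
theorem frost {X : I → ℝ} (hX : Continuous X) {y : ℝ} {A : ℕ → Set I}
    (hAm : ∀ m, MeasurableSet (A m))
    (hA1 : ∀ m, ∀ r ∈ A m, |X r - y| ≤ ((2:ℝ) ^ m)⁻¹)
    {c0 : ℝ} (hc0 : 0 < c0) (hA2 : ∀ᶠ m in atTop, ENNReal.ofReal (c0 * ((2:ℝ) ^ m)⁻¹) ≤ volume (A m))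
    {α C : ℝ} (hα : 0 < α) (hC : 0 < C)
    (hA3 : ∀ n m : ℕ, n ≤ m → ∀ a : ℝ,
      volume (A m ∩ {r : I | a ≤ (r : ℝ) ∧ (r : ℝ) ≤ a + ((2:ℝ) ^ n)⁻¹}) ≤
        ENNReal.ofReal (C * ((2:ℝ) ^ m)⁻¹ * (((2:ℝ) ^ n)⁻¹) ^ α)) :
    ENNReal.ofReal α ≤ dimH {r : I | X r = y} := by
  classical
  -- the approximating probability measures
  obtain ⟨m0, hm0⟩ := eventually_atTop.1 hA2
  have hpos : ∀ m ≥ m0, volume (A m) ≠ 0 := by
    intro m hm h
    have := hm0 m hm
    rw [h, nonpos_iff_eq_zero, ENNReal.ofReal_eq_zero] at this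
    have h2 : 0 < c0 * ((2:ℝ) ^ m)⁻¹ := by positivity
    linarith
  let ν : ℕ → ProbabilityMeasure I := fun m =>
    ⟨ProbabilityTheory.cond volume (A (m + m0)),
      cond_isProbabilityMeasure (hpos (m + m0) (by omega))⟩
  have hνapp : ∀ m (S : Set I), (ν m : Measure I) S = (volume (A (m + m0)))⁻¹ *
      volume (A (m + m0) ∩ S) := by
    intro m S
    exact cond_apply (hAm _) volume S
  obtain ⟨ν', hν'⟩ : ∃ ν' : ProbabilityMeasure I, Tendsto ν (hyperfilter ℕ : Filter ℕ) (𝓝 ν') := by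
    obtain ⟨x, -, hx⟩ := (isCompact_univ (X := ProbabilityMeasure I)).ultrafilter_le_nhds
      ((hyperfilter ℕ).map ν) (by simp)
    exact ⟨x, hx⟩
  have hopen : ∀ G : Set I, IsOpen G → ∀ t : ℝ≥0∞, (∀ᶠ m in atTop, (ν m : Measure I) G ≤ t) →
      (ν' : Measure I) G ≤ t := by
    intro G hG t ht
    refine (ProbabilityMeasure.le_liminf_measure_open_of_tendsto hν' hG).trans ?_
    have h1 : ∀ᶠ m in (hyperfilter ℕ : Filter ℕ), (ν m : Measure I) G ≤ t :=
      (Nat.hyperfilter_le_atTop) ht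
    exact liminf_le_of_frequently_le' h1.frequently
  -- bound on intervals
  have hint : ∀ n : ℕ, ∀ m : ℕ, n ≤ m + m0 → ∀ a : ℝ,
      (ν m : Measure I) {r : I | a ≤ (r : ℝ) ∧ (r : ℝ) ≤ a + ((2:ℝ) ^ n)⁻¹} ≤
        ENNReal.ofReal (C / c0 * (((2:ℝ) ^ n)⁻¹) ^ α) := by
    intro n m hnm a
    rw [hνapp]
    have h1 := hm0 (m + m0) (by omega)
    have h2 := hA3 n (m + m0) hnm a
    have h3 : (0:ℝ) < c0 * ((2:ℝ) ^ (m + m0))⁻¹ := by positivity
    calc (volume (A (m + m0)))⁻¹ *
          volume (A (m + m0) ∩ {r : I | a ≤ (r : ℝ) ∧ (r : ℝ) ≤ a + ((2:ℝ) ^ n)⁻¹})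
        ≤ (ENNReal.ofReal (c0 * ((2:ℝ) ^ (m + m0))⁻¹))⁻¹ *
          ENNReal.ofReal (C * ((2:ℝ) ^ (m + m0))⁻¹ * (((2:ℝ) ^ n)⁻¹) ^ α) := by
          gcongr
      _ = ENNReal.ofReal (C / c0 * (((2:ℝ) ^ n)⁻¹) ^ α) := by
          rw [← ENNReal.ofReal_inv_of_pos h3, ← ENNReal.ofReal_mul (by positivity)]
          congr 1
          field_simp
  -- bound for the limit measure on small balls
  have hball : ∀ n : ℕ, ∀ p : I, (ν' : Measure I) {r : I | |(r : ℝ) - p| < 2 * ((2:ℝ) ^ n)⁻¹} ≤
      ENNReal.ofReal (4 * (C / c0) * (((2:ℝ) ^ n)⁻¹) ^ α) := by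
    intro n p
    refine hopen _ ?_ _ ?_
    · exact isOpen_lt (by fun_prop) continuous_const
    · filter_upwards [eventually_ge_atTop n] with m hm
      set d := ((2:ℝ) ^ n)⁻¹ with hd
      have hd0 : 0 < d := by positivity
      have hcov : {r : I | |(r : ℝ) - p| < 2 * d} ⊆
          ⋃ i ∈ Finset.range 4, {r : I | ((p:ℝ) - 2 * d + i * d) ≤ (r : ℝ) ∧
            (r : ℝ) ≤ ((p:ℝ) - 2 * d + i * d) + d} := by
        intro r hr
        simp only [mem_ofPred_eq, abs_lt] at hr
        simp only [mem_iUnion, mem_ofPred_eq, Finset.mem_range, exists_prop]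
        by_cases h1 : (r : ℝ) ≤ p - d
        · exact ⟨0, by norm_num, by push_cast; linarith, by push_cast; linarith⟩
        by_cases h2 : (r : ℝ) ≤ p
        · exact ⟨1, by norm_num, by push_cast; linarith, by push_cast; linarith⟩
        by_cases h3 : (r : ℝ) ≤ p + d
        · exact ⟨2, by norm_num, by push_cast; linarith, by push_cast; linarith⟩
        · exact ⟨3, by norm_num, by push_cast; linarith, by push_cast; linarith⟩
      refine (measure_mono hcov).trans ?_
      refine (measure_biUnion_finset_le _ _).trans ?_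
      refine (Finset.sum_le_sum (fun i _ => hint n m (by omega) _)).trans ?_
      rw [Finset.sum_const, Finset.card_range, nsmul_eq_mul]
      have : ((4 : ℕ) : ℝ≥0∞) = ENNReal.ofReal 4 := by norm_num
      rw [this, ← ENNReal.ofReal_mul (by norm_num)]
      apply le_of_eq
      congr 1
      ring
  -- support
  have hsupp : (ν' : Measure I) {r : I | X r = y} = 1 := by
    have h1 : (ν' : Measure I) ({r : I | X r = y}ᶜ) = 0 := by
      have h2 : ({r : I | X r = y}ᶜ) = ⋃ k : ℕ, {r : I | ((2:ℝ) ^ k)⁻¹ < |X r - y|} := by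
        ext r
        simp only [mem_compl_iff, mem_ofPred_eq, mem_iUnion]
        constructor
        · intro h
          have h3 : 0 < |X r - y| := abs_pos.2 (sub_ne_zero.2 h)
          obtain ⟨k, hk⟩ := exists_pow_lt_of_lt_one h3 (by norm_num : (1/2 : ℝ) < 1)
          refine ⟨k, ?_⟩
          rw [one_div, inv_pow] at hk
          exact hk
        · rintro ⟨k, hk⟩ h
          rw [h, sub_self, abs_zero] at hk
          have : (0:ℝ) < ((2:ℝ) ^ k)⁻¹ := by positivity
          linarith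
      rw [h2, measure_iUnion_null_iff]
      intro k
      rw [← nonpos_iff_eq_zero]
      refine hopen _ ?_ _ ?_
      · exact isOpen_lt continuous_const (by fun_prop)
      · filter_upwards [eventually_ge_atTop k] with m hm
        rw [hνapp]
        have : A (m + m0) ∩ {r : I | ((2:ℝ) ^ k)⁻¹ < |X r - y|} = ∅ := by
          ext r
          simp only [mem_inter_iff, mem_ofPred_eq, mem_empty_iff_false, iff_false, not_and, not_lt]
          intro hr
          refine (hA1 _ r hr).trans ?_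
          apply inv_anti₀ (by positivity)
          exact pow_le_pow_right₀ (by norm_num) (by omega)
        rw [this]; simp
    have h3 := prob_compl_eq_zero_iff (μ := (ν' : Measure I))
      (s := {r : I | X r = y}) ((isClosed_eq hX continuous_const).measurableSet)
    exact h3.1 h1
  -- the Hausdorff measure
  set C₁ : ℝ := 4 * (C / c0) * 2 ^ α with hC₁
  have hC₁0 : 0 < C₁ := by positivity
  have hle : (ENNReal.ofReal C₁)⁻¹ • (ν' : Measure I) ≤ μH[α] := by
    refine Measure.le_hausdorffMeasure α _ 1 one_pos fun S hS => ?_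
    rw [Measure.smul_apply, smul_eq_mul]
    rcases S.eq_empty_or_nonempty with rfl | ⟨p, hp⟩
    · simp
    have hb : ∀ r ∈ S, ENNReal.ofReal |(r : ℝ) - p| ≤ Metric.ediam S := by
      intro r hr
      have := Metric.edist_le_ediam_of_mem hr hp
      rwa [edist_dist, Subtype.dist_eq, Real.dist_eq] at this
    have hfin : Metric.ediam S ≠ ∞ := ne_top_of_le_ne_top ENNReal.one_ne_top hS
    set d := (Metric.ediam S).toReal with hd
    have hdS : Metric.ediam S = ENNReal.ofReal d := (ENNReal.ofReal_toReal hfin).symm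
    have hd0 : 0 ≤ d := ENNReal.toReal_nonneg
    have hd1 : d ≤ 1 := by
      rw [hdS] at hS
      exact ENNReal.ofReal_le_one.1 hS
    have hb' : ∀ r ∈ S, |(r : ℝ) - p| ≤ d := by
      intro r hr
      have := hb r hr
      rw [hdS] at this
      exact (ENNReal.ofReal_le_ofReal_iff hd0).1 this
    have hup : ∀ n : ℕ, d < 2 * ((2:ℝ) ^ n)⁻¹ → (ν' : Measure I) S ≤
        ENNReal.ofReal (4 * (C / c0) * (((2:ℝ) ^ n)⁻¹) ^ α) := by
      intro n hn
      refine (measure_mono ?_).trans (hball n p)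
      intro r hr
      exact (hb' r hr).trans_lt hn
    rw [hdS]
    rcases hd0.eq_or_lt with h0 | h0
    · -- diameter zero
      have hz : (ν' : Measure I) S = 0 := by
        have ht : Tendsto (fun n : ℕ => ENNReal.ofReal (4 * (C / c0) * (((2:ℝ) ^ n)⁻¹) ^ α)) atTop
            (𝓝 0) := by
          rw [← ENNReal.ofReal_zero]
          apply (ENNReal.continuous_ofReal.tendsto 0).comp
          have h4 : Tendsto (fun n : ℕ => ((2:ℝ) ^ n)⁻¹) atTop (𝓝 0) := by
            have := tendsto_pow_atTop_nhds_zero_of_lt_one (r := (1/2 : ℝ)) (by norm_num)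
              (by norm_num)
            simpa [one_div, inv_pow] using this
          have h5 : Tendsto (fun n : ℕ => (((2:ℝ) ^ n)⁻¹) ^ α) atTop (𝓝 0) := by
            have := (Real.continuousAt_rpow_const 0 α (Or.inr hα.le)).tendsto.comp h4
            rwa [Real.zero_rpow hα.ne'] at this
          have := h5.const_mul (4 * (C / c0))
          simpa using this
        refine le_antisymm (ge_of_tendsto' ht fun n => hup n ?_) (zero_le)
        rw [← h0]; positivity
      rw [hz]; simp
    · obtain ⟨n, hn1, hn2⟩ := exists_nat_pow_near_of_lt_one h0 hd1 (by norm_num : (0:ℝ) < 1/2)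
        (by norm_num : (1/2:ℝ) < 1)
      rw [one_div, inv_pow] at hn1 hn2
      have h6 := hup n (by
        have : (0:ℝ) < ((2:ℝ) ^ n)⁻¹ := by positivity
        linarith)
      have h7 : ((2:ℝ) ^ n)⁻¹ ≤ 2 * d := by
        have : ((2:ℝ) ^ (n + 1))⁻¹ = ((2:ℝ) ^ n)⁻¹ / 2 := by rw [pow_succ]; field_simp
        rw [this] at hn1
        linarith
      rw [ENNReal.ofReal_rpow_of_pos h0]
      have h8 : (4 * (C / c0) * (((2:ℝ) ^ n)⁻¹) ^ α) ≤ C₁ * d ^ α := by
        rw [hC₁]
        have : (((2:ℝ) ^ n)⁻¹) ^ α ≤ (2 * d) ^ α :=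
          Real.rpow_le_rpow (by positivity) h7 hα.le
        rw [Real.mul_rpow (by norm_num) hd0] at this
        calc _ ≤ 4 * (C / c0) * (2 ^ α * d ^ α) := by gcongr
          _ = _ := by ring
      calc (ENNReal.ofReal C₁)⁻¹ * (ν' : Measure I) S
          ≤ (ENNReal.ofReal C₁)⁻¹ * ENNReal.ofReal (C₁ * d ^ α) := by
            gcongr
            exact h6.trans (ENNReal.ofReal_le_ofReal h8)
        _ = ENNReal.ofReal (d ^ α) := by
            rw [← ENNReal.ofReal_inv_of_pos hC₁0, ← ENNReal.ofReal_mul (by positivity)]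
            congr 1
            field_simp
  have hne : μH[((⟨α, hα.le⟩ : ℝ≥0) : ℝ)] {r : I | X r = y} ≠ 0 := by
    intro h
    have h1 := hle {r : I | X r = y}
    rw [Measure.smul_apply, smul_eq_mul, hsupp, mul_one] at h1
    change μH[α] {r : I | X r = y} = 0 at h
    rw [h, nonpos_iff_eq_zero, ENNReal.inv_eq_zero] at h1
    exact ENNReal.ofReal_ne_top h1
  have := le_dimH_of_hausdorffMeasure_ne_zero hne
  rw [ENNReal.ofReal, Real.toNNReal_of_nonneg hα.le]
  exact this

end H316.LT
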