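import Pool.Agent.H316R3.LT.Bnd
import Pool.Agent.H316R3.LT.Frost

open MeasureTheory ProbabilityTheory Set Filter Topology
open scoped NNReal ENNReal unitInterval

namespace H316.LT

/-- dyadic mesh -/
noncomputable def del (m : ℕ) : ℝ := ((2:ℝ) ^ m)⁻¹

lemma del_pos (m : ℕ) : 0 < del m := by unfold del; positivity

lemma del_le_one (m : ℕ) : del m ≤ 1 := inv_le_one_of_one_le₀ (one_le_pow₀ (by norm_num))

lemma del_succ (m : ℕ) : del m = 2 * del (m + 1) := by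
  unfold del; rw [pow_succ]; field_simp

lemma two_pow_mul_del (m : ℕ) : (2:ℝ) ^ m * del m = 1 := by
  unfold del; exact mul_inv_cancel₀ (by positivity)

lemma del_rpow (m : ℕ) (α : ℝ) : del m ^ α = ((1 / 2 : ℝ) ^ α) ^ m := by
  unfold del
  rw [← inv_pow, ← Real.rpow_natCast, ← Real.rpow_natCast, ← Real.rpow_mul (by norm_num),
    ← Real.rpow_mul (by norm_num), mul_comm, one_div]

/-- approximate local time -/
noncomputable def lam (X : ℝ → ℝ) (a b : ℝ) (m : ℕ) (k : ℤ) : ℝ :=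
  2 ^ m * ∫ r in a..b, win (del m) (k * del m) (X r)

lemma win_nonneg (h c u : ℝ) : 0 ≤ win h c u := by
  unfold win indicator; split_ifs <;> simp

lemma win_refine (m : ℕ) (k : ℤ) (u : ℝ) : win (del m) (k * del m) u =
    win (del (m + 1)) (((2 * k : ℤ) : ℝ) * del (m + 1)) u +
      win (del (m + 1)) (((2 * k + 1 : ℤ) : ℝ) * del (m + 1)) u := by
  rw [del_succ m]
  have hd := del_pos (m + 1)
  set d := del (m + 1)
  unfold win indicator
  push_cast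
  simp only [mem_Ico, Pi.one_apply]
  have e : (k : ℝ) * (2 * d) = 2 * k * d := by ring
  have e2 : ((2 : ℝ) * k + 1) * d = 2 * k * d + d := by ring
  rw [e, e2]
  split_ifs with h1 h2 h3 h4 h5 h6 <;> first | (norm_num; done) | (exfalso; grind)

lemma win_meas (h c : ℝ) : Measurable (win h c) := (win_meas2 h).comp measurable_prodMk_left

lemma win_ii {X : ℝ → ℝ} (hX : Measurable X) (h c a b : ℝ) :
    IntervalIntegrable (fun r => win h c (X r)) volume a b :=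
  bdd_intInt ((win_meas h c).comp hX) (M := 1) (fun _ => win_abs_le _ _ _) a b

lemma lam_refine {X : ℝ → ℝ} (hX : Measurable X) (a b : ℝ) (m : ℕ) (k : ℤ) :
    lam X a b m k = (lam X a b (m + 1) (2 * k) + lam X a b (m + 1) (2 * k + 1)) / 2 := by
  unfold lam
  simp_rw [win_refine m k]
  rw [intervalIntegral.integral_add (win_ii hX _ _ _ _) (win_ii hX _ _ _ _)]
  rw [pow_succ]; ring

lemma floor_step (m : ℕ) (y : ℝ) :
    ⌊(2:ℝ) ^ (m + 1) * y⌋ = 2 * ⌊(2:ℝ) ^ m * y⌋ ∨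
      ⌊(2:ℝ) ^ (m + 1) * y⌋ = 2 * ⌊(2:ℝ) ^ m * y⌋ + 1 := by
  set t := (2:ℝ) ^ m * y with ht
  have e : (2:ℝ) ^ (m + 1) * y = 2 * t := by rw [ht, pow_succ]; ring
  rw [e]
  have h1 : 2 * ⌊t⌋ ≤ ⌊2 * t⌋ := by
    rw [Int.le_floor]; push_cast; linarith [Int.floor_le t]
  have h2 : ⌊2 * t⌋ < 2 * ⌊t⌋ + 2 := by
    rw [Int.floor_lt]; push_cast; linarith [Int.lt_floor_add_one t]
  omega

/-- The quantitative hypothesis on a path. -/
def Hyp (X : ℝ → ℝ) (α C : ℝ) : Prop :=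
  (∀ n j m : ℕ, ∀ k : ℤ, n ≤ m → j < 2 ^ n →
    |lam X (j * del n) (j * del n + del n) m (k + 1) - lam X (j * del n) (j * del n + del n) m k| ≤
      C * del m ^ α) ∧
  (∀ n j : ℕ, ∀ k : ℤ, j < 2 ^ n → lam X (j * del n) (j * del n + del n) n k ≤ C * del n ^ α)

lemma step_lam {X : ℝ → ℝ} (hX : Measurable X) {α C : ℝ} (hα : 0 < α) (hC : 0 < C)
    (H : Hyp X α C) {n j m : ℕ} (hnm : n ≤ m) (hj : j < 2 ^ n) (y : ℝ) :
    |lam X (j * del n) (j * del n + del n) m ⌊(2:ℝ) ^ m * y⌋ -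
      lam X (j * del n) (j * del n + del n) (m + 1) ⌊(2:ℝ) ^ (m + 1) * y⌋| ≤ C * del m ^ α := by
  rw [lam_refine hX]
  have h1 := H.1 n j (m + 1) (2 * ⌊(2:ℝ) ^ m * y⌋) (by omega) hj
  have h2 : del (m + 1) ^ α ≤ del m ^ α := by
    apply Real.rpow_le_rpow (del_pos _).le _ hα.le
    rw [del_succ m]; linarith [del_pos (m + 1)]
  have h3 : C * del (m + 1) ^ α ≤ C * del m ^ α := by gcongr
  have h4 := (abs_le.1 h1)
  rcases floor_step m y with h | h <;> rw [h, abs_le] <;> constructor <;> linarith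

/-- uniform bound for the approximate local times on dyadic intervals -/
lemma lam_le {X : ℝ → ℝ} (hX : Measurable X) {α C : ℝ} (hα : 0 < α) (hC : 0 < C)
    (H : Hyp X α C) {n j m : ℕ} (hnm : n ≤ m) (hj : j < 2 ^ n) (y : ℝ) :
    lam X (j * del n) (j * del n + del n) m ⌊(2:ℝ) ^ m * y⌋ ≤
      C * (1 + 2 / (1 - (1 / 2 : ℝ) ^ α)) * del n ^ α := by
  set ρ : ℝ := (1 / 2 : ℝ) ^ α with hρ
  have hρ0 : 0 < ρ := by positivity
  have hρ1 : ρ < 1 := Real.rpow_lt_one (by norm_num) (by norm_num) hα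
  set u : ℕ → ℝ := fun i => lam X (j * del n) (j * del n + del n) (n + i) ⌊(2:ℝ) ^ (n + i) * y⌋
    with hu
  have hst : ∀ i, dist (u i) (u (i + 1)) ≤ (C * del n ^ α) * ρ ^ i := by
    intro i
    have := step_lam hX hα hC H (n := n) (j := j) (m := n + i) (by omega) hj y
    rw [Real.dist_eq]
    refine this.trans (le_of_eq ?_)
    rw [del_rpow, del_rpow, pow_add, mul_assoc]
  obtain ⟨a, ha⟩ := cauchySeq_tendsto_of_complete (cauchySeq_of_le_geometric ρ _ hρ1 hst)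
  have h1 := dist_le_of_le_geometric_of_tendsto ρ _ hρ1 hst ha
  obtain ⟨i, rfl⟩ := Nat.exists_eq_add_of_le hnm
  have h2 := h1 i
  have h3 := h1 0
  have h4 : u 0 ≤ C * del n ^ α := by
    have := H.2 n j ⌊(2:ℝ) ^ n * y⌋ hj
    simpa [hu] using this
  rw [Real.dist_eq, abs_le] at h2 h3
  have hQ0 : 0 ≤ C * del n ^ α := by
    have := del_pos n
    positivity
  have h5 : C * del n ^ α * ρ ^ i / (1 - ρ) ≤ C * del n ^ α / (1 - ρ) := by
    apply div_le_div_of_nonneg_right _ (by linarith)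
    have : ρ ^ i ≤ 1 := pow_le_one₀ hρ0.le hρ1.le
    nlinarith
  rw [pow_zero, mul_one] at h3
  change u i ≤ _
  have h6 : C * (1 + 2 / (1 - ρ)) * del n ^ α =
      C * del n ^ α + 2 * (C * del n ^ α / (1 - ρ)) := by ring
  rw [h6]
  linarith [h2.2, h3.1]

lemma lam_lim {X : ℝ → ℝ} (hX : Measurable X) {α C : ℝ} (hα : 0 < α) (hC : 0 < C)
    (H : Hyp X α C) (y : ℝ) : ∃ L : ℝ,
    Tendsto (fun m => lam X 0 1 m ⌊(2:ℝ) ^ m * y⌋) atTop (𝓝 L) ∧
    ∀ m, |lam X 0 1 m ⌊(2:ℝ) ^ m * y⌋ - L| ≤ C / (1 - (1 / 2 : ℝ) ^ α) * ((1 / 2 : ℝ) ^ α) ^ m := by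
  set ρ : ℝ := (1 / 2 : ℝ) ^ α with hρ
  have hρ0 : 0 < ρ := by positivity
  have hρ1 : ρ < 1 := Real.rpow_lt_one (by norm_num) (by norm_num) hα
  have hst : ∀ m, dist (lam X 0 1 m ⌊(2:ℝ) ^ m * y⌋) (lam X 0 1 (m + 1) ⌊(2:ℝ) ^ (m + 1) * y⌋) ≤
      C * ρ ^ m := by
    intro m
    have := step_lam hX hα hC H (n := 0) (j := 0) (m := m) (by omega) (by norm_num) y
    rw [Real.dist_eq]
    have e : del 0 = 1 := by simp [del]
    simp only [Nat.cast_zero, zero_mul, zero_add, e] at this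
    rw [del_rpow] at this
    exact this
  obtain ⟨a, ha⟩ := cauchySeq_tendsto_of_complete (cauchySeq_of_le_geometric ρ _ hρ1 hst)
  refine ⟨a, ha, fun m => ?_⟩
  have h1 := dist_le_of_le_geometric_of_tendsto ρ _ hρ1 hst ha m
  rw [Real.dist_eq] at h1
  refine h1.trans (le_of_eq ?_)
  ring

/-- value of the window integral -/
lemma int_win {X : ℝ → ℝ} (hX : Measurable X) {a b : ℝ} (hab : a ≤ b) (h c : ℝ) :
    ∫ r in a..b, win h c (X r) = volume.real ({r | X r ∈ Ico c (c + h)} ∩ Ioc a b) := by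
  rw [intervalIntegral.integral_of_le hab]
  have e : (fun r => win h c (X r)) = ({r | X r ∈ Ico c (c + h)}).indicator 1 := by
    funext r
    simp only [win, indicator, mem_ofPred_eq, Pi.one_apply]
  have hm : MeasurableSet {r | X r ∈ Ico c (c + h)} := hX measurableSet_Ico
  rw [e, integral_indicator_one hm, measureReal_restrict_apply hm]

lemma cont_lim {X : ℝ → ℝ} (hX : Measurable X) {α C : ℝ} (hα : 0 < α) (hC : 0 < C)
    (H : Hyp X α C) {L : ℝ → ℝ}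
    (hL : ∀ y, Tendsto (fun m => lam X 0 1 m ⌊(2:ℝ) ^ m * y⌋) atTop (𝓝 (L y))) :
    Continuous L := by
  set ρ : ℝ := (1 / 2 : ℝ) ^ α with hρ
  have hρ0 : 0 < ρ := by positivity
  have hρ1 : ρ < 1 := Real.rpow_lt_one (by norm_num) (by norm_num) hα
  have hb : ∀ y m, |lam X 0 1 m ⌊(2:ℝ) ^ m * y⌋ - L y| ≤ C / (1 - ρ) * ρ ^ m := by
    intro y m
    obtain ⟨L', h1, h2⟩ := lam_lim hX hα hC H y
    rw [tendsto_nhds_unique (hL y) h1]
    exact h2 m
  have hadj : ∀ m (k : ℤ), |lam X 0 1 m (k + 1) - lam X 0 1 m k| ≤ C * ρ ^ m := by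
    intro m k
    have := H.1 0 0 m k (by omega) (by norm_num)
    have e : del 0 = 1 := by simp [del]
    simp only [Nat.cast_zero, zero_mul, zero_add, e] at this
    rwa [del_rpow] at this
  have hmod : ∀ m y z, |z - y| ≤ del m → |L z - L y| ≤ (C + 2 * (C / (1 - ρ))) * ρ ^ m := by
    intro m y z hyz
    wlog hle : y ≤ z generalizing y z
    · rw [abs_sub_comm] at hyz ⊢
      exact this z y hyz (by linarith)
    have h1 := hb y m
    have h2 := hb z m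
    have h3 : |lam X 0 1 m ⌊(2:ℝ) ^ m * z⌋ - lam X 0 1 m ⌊(2:ℝ) ^ m * y⌋| ≤ C * ρ ^ m := by
      have h4 : ⌊(2:ℝ) ^ m * y⌋ ≤ ⌊(2:ℝ) ^ m * z⌋ := Int.floor_le_floor (by gcongr)
      have h5 : ⌊(2:ℝ) ^ m * z⌋ ≤ ⌊(2:ℝ) ^ m * y⌋ + 1 := by
        have h6 : (2:ℝ) ^ m * z ≤ (2:ℝ) ^ m * y + 1 := by
          have h7 : z - y ≤ del m := (le_abs_self _).trans hyz
          have h8 := mul_le_mul_of_nonneg_left h7 (by positivity : (0:ℝ) ≤ 2 ^ m)
          rw [two_pow_mul_del] at h8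
          linarith
        have := Int.floor_le_floor h6
        rwa [Int.floor_add_one] at this
      have h9 : ⌊(2:ℝ) ^ m * z⌋ = ⌊(2:ℝ) ^ m * y⌋ ∨ ⌊(2:ℝ) ^ m * z⌋ = ⌊(2:ℝ) ^ m * y⌋ + 1 := by omega
      rcases h9 with h | h <;> rw [h]
      · rw [sub_self, abs_zero]; positivity
      · exact hadj m _
    have e : (C + 2 * (C / (1 - ρ))) * ρ ^ m = C * ρ ^ m + 2 * (C / (1 - ρ) * ρ ^ m) := by ring
    rw [e]
    rw [abs_le] at h1 h2 h3 ⊢
    constructor <;> linarith [h1.1, h1.2, h2.1, h2.2, h3.1, h3.2]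
  rw [Metric.continuous_iff]
  intro y ε hε
  have ht : Tendsto (fun m : ℕ => (C + 2 * (C / (1 - ρ))) * ρ ^ m) atTop (𝓝 0) := by
    have := (tendsto_pow_atTop_nhds_zero_of_lt_one hρ0.le hρ1).const_mul (C + 2 * (C / (1 - ρ)))
    simpa using this
  obtain ⟨m, hm⟩ := (ht.eventually_lt_const hε).exists
  refine ⟨del m, del_pos m, fun z hz => ?_⟩
  rw [Real.dist_eq] at hz ⊢
  exact (hmod m y z hz.le).trans_lt hm

lemma lam_nonneg {X : ℝ → ℝ} {a b : ℝ} (hab : a ≤ b) (m : ℕ) (k : ℤ) : 0 ≤ lam X a b m k := by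
  unfold lam
  apply mul_nonneg (by positivity)
  exact intervalIntegral.integral_nonneg hab fun _ _ => win_nonneg _ _ _

/-- almost no time is spent where the local time vanishes -/
theorem full_time {X : ℝ → ℝ} (hX : Continuous X) {α C : ℝ} (hα : 0 < α) (hC : 0 < C)
    (H : Hyp X α C) {L : ℝ → ℝ}
    (hL : ∀ y, Tendsto (fun m => lam X 0 1 m ⌊(2:ℝ) ^ m * y⌋) atTop (𝓝 (L y))) :
    volume {r : ℝ | r ∈ Icc (0:ℝ) 1 ∧ L (X r) ≤ 0} = 0 := by
  set ρ : ℝ := (1 / 2 : ℝ) ^ α with hρ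
  have hρ0 : 0 < ρ := by positivity
  have hρ1 : ρ < 1 := Real.rpow_lt_one (by norm_num) (by norm_num) hα
  have hXm := hX.measurable
  have hb : ∀ y m, |lam X 0 1 m ⌊(2:ℝ) ^ m * y⌋ - L y| ≤ C / (1 - ρ) * ρ ^ m := by
    intro y m
    obtain ⟨L', h1, h2⟩ := lam_lim hXm hα hC H y
    rw [tendsto_nhds_unique (hL y) h1]
    exact h2 m
  obtain ⟨K, hK⟩ : ∃ K : ℕ, ∀ r ∈ Icc (0:ℝ) 1, |X r| ≤ K := by
    obtain ⟨C', hC'⟩ := isCompact_Icc.exists_bound_of_continuousOn (s := Icc (0:ℝ) 1)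
      hX.continuousOn
    obtain ⟨K, hK⟩ := exists_nat_ge C'
    exact ⟨K, fun r hr => (hC' r hr).trans hK⟩
  have hS : {r : ℝ | r ∈ Icc (0:ℝ) 1 ∧ L (X r) ≤ 0} ⊆
      {0} ∪ {r : ℝ | r ∈ Ioc (0:ℝ) 1 ∧ L (X r) ≤ 0} := by
    rintro r ⟨hr, h⟩
    rcases hr.1.eq_or_lt with h0 | h0
    · left; exact h0.symm
    · right; exact ⟨⟨h0, hr.2⟩, h⟩
  refine measure_mono_null hS ?_
  rw [measure_union_null_iff]
  refine ⟨by simp, ?_⟩
  have hm : ∀ m : ℕ, volume {r : ℝ | r ∈ Ioc (0:ℝ) 1 ∧ L (X r) ≤ 0} ≤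
      ENNReal.ofReal ((2 * K + 1) * (C / (1 - ρ) * ρ ^ m)) := by
    intro m
    set d := del m with hd
    have hd0 := del_pos m
    have hc0 : 0 ≤ C / (1 - ρ) * ρ ^ m := by
      have : 0 < 1 - ρ := by linarith
      positivity
    -- cover by bad windows
    have hcov : {r : ℝ | r ∈ Ioc (0:ℝ) 1 ∧ L (X r) ≤ 0} ⊆
        ⋃ k ∈ Finset.Icc (-(K * 2 ^ m : ℤ)) (K * 2 ^ m),
          {r : ℝ | r ∈ Ioc (0:ℝ) 1 ∧ L (X r) ≤ 0 ∧ ⌊(2:ℝ) ^ m * X r⌋ = k} := by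
      rintro r ⟨hr, h⟩
      simp only [mem_iUnion, mem_ofPred_eq, exists_prop]
      refine ⟨⌊(2:ℝ) ^ m * X r⌋, ?_, hr, h, rfl⟩
      have h1 := hK r ⟨hr.1.le, hr.2⟩
      rw [abs_le] at h1
      rw [Finset.mem_Icc]
      have h2 : (0:ℝ) < 2 ^ m := by positivity
      constructor
      · rw [Int.le_floor]; push_cast; nlinarith [h1.1]
      · have h3 : ((⌊(2:ℝ) ^ m * X r⌋ : ℤ) : ℝ) ≤ ((K * 2 ^ m : ℤ) : ℝ) := by
          push_cast
          calc ((⌊(2:ℝ) ^ m * X r⌋ : ℤ) : ℝ) ≤ (2:ℝ) ^ m * X r := Int.floor_le _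
            _ ≤ _ := by nlinarith [h1.2]
        exact_mod_cast h3
    have hone : ∀ k ∈ Finset.Icc (-(K * 2 ^ m : ℤ)) (K * 2 ^ m),
        volume {r : ℝ | r ∈ Ioc (0:ℝ) 1 ∧ L (X r) ≤ 0 ∧ ⌊(2:ℝ) ^ m * X r⌋ = k} ≤
        ENNReal.ofReal (d * (C / (1 - ρ) * ρ ^ m)) := by
      intro k _
      rcases ({r : ℝ | r ∈ Ioc (0:ℝ) 1 ∧ L (X r) ≤ 0 ∧
        ⌊(2:ℝ) ^ m * X r⌋ = k}).eq_empty_or_nonempty with he | ⟨r0, hr0, hL0, hk0⟩
      · rw [he]; simp
      have h1 := hb (X r0) m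
      rw [hk0, abs_le] at h1
      have h2 : lam X 0 1 m k ≤ C / (1 - ρ) * ρ ^ m := by linarith [h1.2]
      have h3 : volume.real ({r | X r ∈ Ico (k * d) (k * d + d)} ∩ Ioc 0 1) ≤
          d * (C / (1 - ρ) * ρ ^ m) := by
        rw [lam, int_win hXm zero_le_one] at h2
        calc _ = d * (2 ^ m * volume.real ({r | X r ∈ Ico (k * d) (k * d + d)} ∩ Ioc 0 1)) := by
              rw [← mul_assoc, mul_comm d, hd, two_pow_mul_del, one_mul]
          _ ≤ _ := by gcongr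
      have h4 : volume ({r | X r ∈ Ico (k * d) (k * d + d)} ∩ Ioc 0 1) ≠ ∞ := by
        refine ne_top_of_le_ne_top ?_ (measure_mono inter_subset_right)
        simp
      refine (measure_mono (t := {r | X r ∈ Ico (k * d) (k * d + d)} ∩ Ioc 0 1) ?_).trans ?_
      · rintro r ⟨hr, -, hk⟩
        refine ⟨?_, hr⟩
        simp only [mem_ofPred_eq, mem_Ico]
        rw [Int.floor_eq_iff] at hk
        have hp : (0:ℝ) < 2 ^ m := by positivity
        have e1 : X r = (2 ^ m * X r) * d := by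
          rw [mul_comm ((2:ℝ) ^ m), mul_assoc, hd, two_pow_mul_del, mul_one]
        constructor
        · rw [e1]; exact mul_le_mul_of_nonneg_right hk.1 hd0.le
        · rw [e1]; nlinarith [hk.2]
      · rw [← ENNReal.ofReal_toReal h4]
        exact ENNReal.ofReal_le_ofReal h3
    refine (measure_mono hcov).trans ((measure_biUnion_finset_le _ _).trans
      ((Finset.sum_le_sum hone).trans ?_))
    rw [Finset.sum_const, nsmul_eq_mul, Int.card_Icc]
    have hcard : ((K * 2 ^ m + 1 - -(K * 2 ^ m) : ℤ)).toNat = 2 * K * 2 ^ m + 1 := by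
      have : (K * 2 ^ m + 1 - -(K * 2 ^ m) : ℤ) = ((2 * K * 2 ^ m + 1 : ℕ) : ℤ) := by
        push_cast; ring
      rw [this, Int.toNat_natCast]
    rw [hcard]
    have e3 : ((2 * K * 2 ^ m + 1 : ℕ) : ℝ≥0∞) = ENNReal.ofReal (2 * K * 2 ^ m + 1) := by
      rw [← ENNReal.ofReal_natCast]; push_cast; rfl
    rw [e3, ← ENNReal.ofReal_mul (by positivity)]
    apply ENNReal.ofReal_le_ofReal
    rw [← mul_assoc]
    apply mul_le_mul_of_nonneg_right _ hc0
    rw [add_mul, mul_assoc, hd, two_pow_mul_del, mul_one, one_mul]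
    linarith [del_le_one m]
  have ht : Tendsto (fun m : ℕ => ENNReal.ofReal ((2 * K + 1) * (C / (1 - ρ) * ρ ^ m))) atTop
      (𝓝 0) := by
    rw [← ENNReal.ofReal_zero]
    apply (ENNReal.continuous_ofReal.tendsto 0).comp
    have := ((tendsto_pow_atTop_nhds_zero_of_lt_one hρ0.le hρ1).const_mul
      (C / (1 - ρ))).const_mul ((2 * K + 1 : ℝ))
    simpa using this
  exact le_antisymm (ge_of_tendsto' ht hm) (zero_le)

end H316.LT
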