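import Pool.Agent.H316R3.LT.Det

open MeasureTheory ProbabilityTheory Set Filter Topology
open scoped NNReal ENNReal unitInterval

namespace H316.LT

lemma vol_window {X : ℝ → ℝ} (hX : Continuous X) {α C : ℝ} (hα : 0 < α) (hC : 0 < C)
    (H : Hyp X α C) (y : ℝ) {n m : ℕ} (hnm : n ≤ m) (i : ℤ) :
    volume ({r | X r ∈ Ico (⌊(2:ℝ) ^ m * y⌋ * del m) (⌊(2:ℝ) ^ m * y⌋ * del m + del m)} ∩
      (Ioc (i * del n) (i * del n + del n) ∩ Ioc 0 1)) ≤
      ENNReal.ofReal (del m * (C * (1 + 2 / (1 - (1 / 2 : ℝ) ^ α)) * del n ^ α)) := by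
  have hdn := del_pos n
  have h2n : (2:ℝ) ^ n * del n = 1 := two_pow_mul_del n
  by_cases hi : 0 ≤ i ∧ i < 2 ^ n
  · obtain ⟨j, rfl⟩ := Int.eq_ofNat_of_zero_le hi.1
    have hj : j < 2 ^ n := by exact_mod_cast hi.2
    have h1 := lam_le hX.measurable hα hC H hnm hj y
    rw [lam, int_win hX.measurable (by linarith)] at h1
    have hfin : volume ({r | X r ∈ Ico (⌊(2:ℝ) ^ m * y⌋ * del m)
        (⌊(2:ℝ) ^ m * y⌋ * del m + del m)} ∩ Ioc (j * del n) (j * del n + del n)) ≠ ∞ := by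
      refine ne_top_of_le_ne_top ?_ (measure_mono inter_subset_right)
      simp
    refine (measure_mono (t := ({r | X r ∈ Ico (⌊(2:ℝ) ^ m * y⌋ * del m)
        (⌊(2:ℝ) ^ m * y⌋ * del m + del m)} ∩ Ioc (j * del n) (j * del n + del n))) ?_).trans ?_
    · rintro r ⟨h3, h4, h5⟩
      exact ⟨h3, by simpa using h4⟩
    · rw [← ENNReal.ofReal_toReal hfin]
      apply ENNReal.ofReal_le_ofReal
      set V := volume.real ({r | X r ∈ Ico (⌊(2:ℝ) ^ m * y⌋ * del m)
        (⌊(2:ℝ) ^ m * y⌋ * del m + del m)} ∩ Ioc (j * del n) (j * del n + del n)) with hV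
      change V ≤ _
      calc V = del m * (2 ^ m * V) := by
            rw [← mul_assoc, mul_comm (del m), two_pow_mul_del, one_mul]
        _ ≤ _ := mul_le_mul_of_nonneg_left h1 (del_pos m).le
  · have : ({r | X r ∈ Ico (⌊(2:ℝ) ^ m * y⌋ * del m) (⌊(2:ℝ) ^ m * y⌋ * del m + del m)} ∩
      (Ioc (i * del n) (i * del n + del n) ∩ Ioc 0 1)) = ∅ := by
      apply eq_empty_of_forall_notMem
      rintro r ⟨-, h4, h5⟩
      apply hi
      constructor
      · by_contra h
        push Not at h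
        have h6 : (i : ℝ) + 1 ≤ 0 := by exact_mod_cast h
        have h7 : ((i : ℝ) + 1) * del n ≤ 0 := mul_nonpos_of_nonpos_of_nonneg h6 hdn.le
        linarith [h4.2, h5.1]
      · by_contra h
        push Not at h
        have h6 : (2:ℝ) ^ n ≤ (i : ℝ) := by exact_mod_cast h
        have h7 : (2:ℝ) ^ n * del n ≤ i * del n := mul_le_mul_of_nonneg_right h6 hdn.le
        linarith [h4.1, h5.2]
    rw [this]; simp

theorem dim_bound {X : ℝ → ℝ} (hX : Continuous X) {α C : ℝ} (hα : 0 < α) (hC : 0 < C)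
    (H : Hyp X α C) {y L : ℝ} (hLpos : 0 < L)
    (hL : Tendsto (fun m => lam X 0 1 m ⌊(2:ℝ) ^ m * y⌋) atTop (𝓝 L)) :
    ENNReal.ofReal α ≤ dimH {r : ℝ | r ∈ Icc (0:ℝ) 1 ∧ X r = y} := by
  set ρ : ℝ := (1 / 2 : ℝ) ^ α with hρ
  have hρ0 : 0 < ρ := by positivity
  have hρ1 : ρ < 1 := Real.rpow_lt_one (by norm_num) (by norm_num) hα
  have hρ2 : 0 < 1 - ρ := by linarith
  have himg : {r : ℝ | r ∈ Icc (0:ℝ) 1 ∧ X r = y} = Subtype.val '' {r : I | X r = y} := by
    ext r
    simp only [mem_ofPred_eq, mem_image, Subtype.exists, exists_and_right, exists_eq_right]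
    constructor
    · rintro ⟨h1, h2⟩; exact ⟨h1, h2⟩
    · rintro ⟨h1, h2⟩; exact ⟨h1, h2⟩
  rw [himg, isometry_subtype_coe.dimH_image]
  set A : ℕ → Set I := fun m => {r : I | X r ∈ Ico (⌊(2:ℝ) ^ m * y⌋ * del m)
    (⌊(2:ℝ) ^ m * y⌋ * del m + del m)} with hA
  have hXc : Continuous (fun r : I => X r) := hX.comp continuous_subtype_val
  refine frost (X := fun r : I => X r) hXc (A := A) (fun m => hXc.measurable measurableSet_Ico) ?_
    (c0 := L / 2) (by linarith) ?_ (C := 2 * (C * (1 + 2 / (1 - ρ)))) hα (by positivity) ?_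
  · intro m r hr
    change |X r - y| ≤ del m
    have hr' : X r ∈ Ico (⌊(2:ℝ) ^ m * y⌋ * del m) (⌊(2:ℝ) ^ m * y⌋ * del m + del m) := hr
    have hd := del_pos m
    have h1 := Int.floor_le ((2:ℝ) ^ m * y)
    have h2 := Int.lt_floor_add_one ((2:ℝ) ^ m * y)
    have e1 : y = (2 ^ m * y) * del m := by
      rw [mul_comm ((2:ℝ) ^ m), mul_assoc, two_pow_mul_del, mul_one]
    have h3 : ⌊(2:ℝ) ^ m * y⌋ * del m ≤ y := by
      calc _ ≤ (2 ^ m * y) * del m := mul_le_mul_of_nonneg_right h1 hd.le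
        _ = y := e1.symm
    have h4 : y ≤ ⌊(2:ℝ) ^ m * y⌋ * del m + del m := by
      calc y = (2 ^ m * y) * del m := e1
        _ ≤ (⌊(2:ℝ) ^ m * y⌋ + 1) * del m := mul_le_mul_of_nonneg_right h2.le hd.le
        _ = _ := by ring
    rw [abs_le]
    constructor <;> linarith [hr'.1, hr'.2]
  · have h1 : ∀ᶠ m in atTop, L / 2 < lam X 0 1 m ⌊(2:ℝ) ^ m * y⌋ :=
      hL.eventually_const_lt (by linarith)
    filter_upwards [h1] with m hm
    change ENNReal.ofReal (L / 2 * del m) ≤ _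
    rw [unitInterval.volume_apply]
    rw [lam, int_win hX.measurable zero_le_one] at hm
    set S := {r | X r ∈ Ico (⌊(2:ℝ) ^ m * y⌋ * del m) (⌊(2:ℝ) ^ m * y⌋ * del m + del m)} ∩
      Ioc (0:ℝ) 1 with hS
    have hfin : volume S ≠ ∞ := by
      refine ne_top_of_le_ne_top ?_ (measure_mono inter_subset_right)
      simp
    have hsub : S ⊆ Subtype.val '' (A m) := by
      rintro r ⟨h2, h3⟩
      exact ⟨⟨r, h3.1.le, h3.2⟩, h2, rfl⟩
    refine le_trans ?_ (measure_mono hsub)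
    rw [← ENNReal.ofReal_toReal hfin]
    apply ENNReal.ofReal_le_ofReal
    change L / 2 * del m ≤ volume.real S
    calc L / 2 * del m ≤ (2 ^ m * volume.real S) * del m :=
          mul_le_mul_of_nonneg_right hm.le (del_pos m).le
      _ = volume.real S * (2 ^ m * del m) := by ring
      _ = _ := by rw [two_pow_mul_del, mul_one]
  · intro n m hnm a
    change volume (A m ∩ {r : I | a ≤ (r : ℝ) ∧ (r : ℝ) ≤ a + del n}) ≤
      ENNReal.ofReal (2 * (C * (1 + 2 / (1 - ρ))) * del m * del n ^ α)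
    rw [unitInterval.volume_apply]
    have hdn := del_pos n
    set S := {r | X r ∈ Ico (⌊(2:ℝ) ^ m * y⌋ * del m) (⌊(2:ℝ) ^ m * y⌋ * del m + del m)} with hS
    set c : ℤ := ⌈a / del n⌉ with hc
    have hsub : Subtype.val '' (A m ∩ {r : I | a ≤ (r : ℝ) ∧ (r : ℝ) ≤ a + del n}) ⊆
        {0} ∪ ((S ∩ (Ioc (((c - 1 : ℤ) : ℝ) * del n) (((c - 1 : ℤ) : ℝ) * del n + del n) ∩
          Ioc 0 1)) ∪ (S ∩ (Ioc (((c : ℤ) : ℝ) * del n) (((c : ℤ) : ℝ) * del n + del n) ∩
          Ioc 0 1))) := by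
      rintro _ ⟨r, ⟨h1, h2, h3⟩, rfl⟩
      rcases r.2.1.eq_or_lt with h0 | h0
      · left; exact h0.symm
      right
      have hcb1 : a ≤ c * del n := by
        have := Int.le_ceil (a / del n)
        rwa [div_le_iff₀ hdn] at this
      have hcb2 : (c - 1) * del n < a := by
        have := Int.ceil_lt_add_one (a / del n)
        have h5 : (c : ℝ) - 1 < a / del n := by linarith
        rwa [lt_div_iff₀ hdn] at h5
      by_cases h4 : (r : ℝ) ≤ c * del n
      · left
        refine ⟨h1, ⟨?_, ?_⟩, h0, r.2.2⟩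
        · push_cast; linarith
        · push_cast; linarith
      · right
        push Not at h4
        refine ⟨h1, ⟨h4, ?_⟩, h0, r.2.2⟩
        linarith
    refine (measure_mono hsub).trans ?_
    refine (measure_union_le _ _).trans ?_
    rw [measure_singleton, zero_add]
    refine (measure_union_le _ _).trans ?_
    refine (add_le_add (vol_window hX hα hC H y hnm _) (vol_window hX hα hC H y hnm _)).trans ?_
    have hpos : 0 ≤ del m * (C * (1 + 2 / (1 - ρ)) * del n ^ α) := by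
      have := del_pos m
      positivity
    rw [← ENNReal.ofReal_add hpos hpos]
    apply ENNReal.ofReal_le_ofReal
    apply le_of_eq
    ring

end H316.LT
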