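import Mathlib

open MeasureTheory ProbabilityTheory Set Filter Topology
open scoped NNReal ENNReal

namespace H316.LT

/-- centred Gaussian density of variance `v` -/
noncomputable def q (v : ℝ≥0) (z : ℝ) : ℝ := gaussianPDFReal 0 v z

lemma q_nonneg (v : ℝ≥0) (z : ℝ) : 0 ≤ q v z := gaussianPDFReal_nonneg 0 v z

lemma q_meas (v : ℝ≥0) : Measurable (q v) := measurable_gaussianPDFReal 0 v

lemma q_eq (v : ℝ≥0) (z : ℝ) :
    q v z = (√(2 * Real.pi * v))⁻¹ * Real.exp (-z ^ 2 / (2 * v)) := by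
  simp [q, gaussianPDFReal]

lemma inv_sqrt_le {v : ℝ≥0} (hv : 0 < v) :
    (√(2 * Real.pi * v))⁻¹ ≤ (√(v : ℝ))⁻¹ := by
  have hv' : (0 : ℝ) < v := by exact_mod_cast hv
  apply inv_anti₀ (Real.sqrt_pos.2 hv')
  apply Real.sqrt_le_sqrt
  nlinarith [Real.pi_gt_three]

lemma q_le {v : ℝ≥0} (hv : 0 < v) (z : ℝ) : q v z ≤ (√(v : ℝ))⁻¹ := by
  rw [q_eq]
  have hv' : (0 : ℝ) < v := by exact_mod_cast hv
  have h1 : Real.exp (-z ^ 2 / (2 * v)) ≤ 1 := by
    apply Real.exp_le_one_iff.2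
    apply div_nonpos_of_nonpos_of_nonneg <;> nlinarith [sq_nonneg z]
  calc (√(2 * Real.pi * v))⁻¹ * Real.exp (-z ^ 2 / (2 * v))
      ≤ (√(2 * Real.pi * v))⁻¹ * 1 := by gcongr
    _ ≤ _ := by rw [mul_one]; exact inv_sqrt_le hv

lemma q_hasDeriv {v : ℝ≥0} (hv : 0 < v) (z : ℝ) :
    HasDerivAt (q v) (-(z / v) * q v z) z := by
  have hv' : (v : ℝ) ≠ 0 := by exact_mod_cast hv.ne'
  have h1 : HasDerivAt (fun z : ℝ => -z ^ 2 / (2 * v)) (-(z / v)) z := by
    have := ((hasDerivAt_pow 2 z).neg).div_const (2 * (v : ℝ))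
    refine this.congr_deriv ?_
    field_simp
    ring
  have h2 := (h1.exp).const_mul ((√(2 * Real.pi * v))⁻¹)
  have h3 : q v = fun z => (√(2 * Real.pi * v))⁻¹ * Real.exp (-z ^ 2 / (2 * v)) := by
    funext z; exact q_eq v z
  rw [h3]
  refine h2.congr_deriv ?_
  ring

lemma q_deriv_bound {v : ℝ≥0} (hv : 0 < v) (z : ℝ) : |-(z / v) * q v z| ≤ (v : ℝ)⁻¹ := by
  have hv' : (0 : ℝ) < v := by exact_mod_cast hv
  rw [q_eq, abs_mul, abs_neg, abs_div, abs_of_pos hv']
  have hs : 0 < √(v : ℝ) := Real.sqrt_pos.2 hv'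
  have hss : √(v : ℝ) * √(v : ℝ) = v := Real.mul_self_sqrt hv'.le
  have h1 : |z| * Real.exp (-z ^ 2 / (2 * v)) ≤ √(v : ℝ) := by
    have h2 : z ^ 2 / (2 * v) + 1 ≤ Real.exp (z ^ 2 / (2 * v)) := Real.add_one_le_exp _
    have h3 : |z| / √(v : ℝ) ≤ z ^ 2 / (2 * v) + 1 := by
      have h4 : z ^ 2 / (2 * v) = (|z| / √(v : ℝ)) ^ 2 / 2 := by
        rw [div_pow, sq_abs, Real.sq_sqrt hv'.le]; field_simp
      rw [h4]
      nlinarith [sq_nonneg (|z| / √(v : ℝ) - 1)]
    have h5 : |z| / √(v : ℝ) ≤ Real.exp (z ^ 2 / (2 * v)) := h3.trans h2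
    have h6 : Real.exp (-z ^ 2 / (2 * v)) = (Real.exp (z ^ 2 / (2 * v)))⁻¹ := by
      rw [← Real.exp_neg]; congr 1; ring
    rw [h6]
    rw [div_le_iff₀ hs] at h5
    rw [mul_inv_le_iff₀ (Real.exp_pos _)]
    linarith [mul_comm (Real.exp (z ^ 2 / (2 * v))) (√(v : ℝ))]
  rw [abs_of_nonneg (by positivity : 0 ≤ (√(2 * Real.pi * v))⁻¹ * Real.exp (-z ^ 2 / (2 * v)))]
  calc |z| / v * ((√(2 * Real.pi * v))⁻¹ * Real.exp (-z ^ 2 / (2 * v)))
      = (|z| * Real.exp (-z ^ 2 / (2 * v))) * (√(2 * Real.pi * v))⁻¹ * (v : ℝ)⁻¹ := by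
        field_simp
    _ ≤ √(v : ℝ) * (√(v : ℝ))⁻¹ * (v : ℝ)⁻¹ :=
        mul_le_mul_of_nonneg_right (mul_le_mul h1 (inv_sqrt_le hv) (by positivity) hs.le)
          (by positivity)
    _ = (v : ℝ)⁻¹ := by rw [mul_inv_cancel₀ hs.ne', one_mul]

lemma q_diff {v : ℝ≥0} (hv : 0 < v) (z w : ℝ) : |q v w - q v z| ≤ |w - z| * (v : ℝ)⁻¹ := by
  have := Convex.norm_image_sub_le_of_norm_hasDerivWithin_le (f := q v)
    (f' := fun z => -(z / v) * q v z) (C := (v : ℝ)⁻¹) (s := univ) (x := z) (y := w)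
    (fun z _ => (q_hasDeriv hv z).hasDerivWithinAt)
    (fun z _ => by rw [Real.norm_eq_abs]; exact q_deriv_bound hv z) convex_univ
    (mem_univ _) (mem_univ _)
  rw [Real.norm_eq_abs, Real.norm_eq_abs] at this
  linarith [mul_comm ((v : ℝ)⁻¹) |w - z|]

lemma q_interp {v : ℝ≥0} (hv : 0 < v) {β : ℝ} (h0 : 0 ≤ β) (h1 : β ≤ 1) (z w : ℝ) :
    |q v w - q v z| ≤ |w - z| ^ β * (v : ℝ) ^ (-(1 + β) / 2) := by
  have hv' : (0 : ℝ) < v := by exact_mod_cast hv
  have hA : |q v w - q v z| ≤ (v : ℝ) ^ (-(1 / 2) : ℝ) := by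
    have h2 : (√(v : ℝ))⁻¹ = (v : ℝ) ^ (-(1 / 2) : ℝ) := by
      rw [Real.rpow_neg hv'.le, Real.sqrt_eq_rpow]
    rw [← h2, abs_sub_le_iff]
    constructor <;> linarith [q_le hv z, q_le hv w, q_nonneg v z, q_nonneg v w]
  have hB := q_diff hv z w
  set D := |q v w - q v z| with hD
  have hD0 : 0 ≤ D := abs_nonneg _
  rcases eq_or_lt_of_le hD0 with h | hpos
  · rw [← h]; positivity
  calc D = D ^ (1 - β) * D ^ β := by
        rw [← Real.rpow_add hpos]; simp
    _ ≤ ((v : ℝ) ^ (-(1 / 2) : ℝ)) ^ (1 - β) * (|w - z| * (v : ℝ)⁻¹) ^ β := by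
        gcongr
    _ = |w - z| ^ β * (v : ℝ) ^ (-(1 + β) / 2) := by
        rw [Real.mul_rpow (abs_nonneg _) (by positivity), ← Real.rpow_mul hv'.le,
          Real.inv_rpow hv'.le, ← Real.rpow_neg hv'.le, mul_comm, mul_assoc,
          ← Real.rpow_add hv']
        congr 2
        ring

/-- difference of two adjacent indicators -/
noncomputable def psi (h c u : ℝ) : ℝ :=
  (Ico (c + h) (c + 2 * h)).indicator 1 u - (Ico c (c + h)).indicator 1 u

lemma psi_meas2 (h : ℝ) : Measurable (fun p : ℝ × ℝ => psi h p.1 p.2) := by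
  have h1 : (fun p : ℝ × ℝ => psi h p.1 p.2) = fun p : ℝ × ℝ =>
      ({p : ℝ × ℝ | p.1 + h ≤ p.2 ∧ p.2 < p.1 + 2 * h}).indicator (fun _ => (1 : ℝ)) p -
      ({p : ℝ × ℝ | p.1 ≤ p.2 ∧ p.2 < p.1 + h}).indicator (fun _ => (1 : ℝ)) p := by
    funext p
    simp only [psi, indicator, mem_Ico, mem_ofPred_eq, Pi.one_apply]
  rw [h1]
  have hA : ∀ k l : ℝ, MeasurableSet {p : ℝ × ℝ | p.1 + k ≤ p.2 ∧ p.2 < p.1 + l} := fun k l =>
    (measurableSet_le (f := fun p : ℝ × ℝ => p.1 + k) (g := fun p => p.2)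
      (by fun_prop) (by fun_prop)).inter
      (measurableSet_lt (f := fun p : ℝ × ℝ => p.2) (g := fun p => p.1 + l)
      (by fun_prop) (by fun_prop))
  apply Measurable.sub
  · apply Measurable.indicator measurable_const
    exact hA h (2 * h)
  · apply Measurable.indicator measurable_const
    have := hA 0 h
    simpa using this

lemma psi_abs_le (h c u : ℝ) : |psi h c u| ≤ 1 := by
  unfold psi indicator
  split_ifs <;> simp

lemma step_eq {v : ℝ≥0} (hv : 0 < v) {g : ℝ → ℝ} (hg : Measurable g) {a : ℝ}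
    (ha : ∀ z, |g z| ≤ a) {h : ℝ} (hh : 0 < h) (c x : ℝ) :
    ∫ z, psi h c (x + z) * g (x + z) ∂(gaussianReal 0 v) =
      ∫ u in c..(c + h), (g (u + h) * q v (u + h - x) - g u * q v (u - x)) := by
  have hq : ∀ z, gaussianPDFReal 0 v z = q v z := fun z => rfl
  rw [integral_gaussianReal_eq_integral_smul hv.ne']
  simp only [smul_eq_mul, hq]
  have e1 : ∫ z, q v z * (psi h c (x + z) * g (x + z)) =
      ∫ u, psi h c u * (g u * q v (u - x)) := by
    rw [← integral_add_left_eq_self (μ := volume)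
      (fun u => psi h c u * (g u * q v (u - x))) x]
    congr 1; funext z
    rw [add_sub_cancel_left]; ring
  rw [e1]
  have hint : Integrable (fun u => g u * q v (u - x)) := by
    have h1 : Integrable (fun u => q v (u - x)) := (integrable_gaussianPDFReal 0 v).comp_sub_right x
    exact h1.bdd_mul (c := a) hg.aestronglyMeasurable
      (ae_of_all _ fun u => by rw [Real.norm_eq_abs]; exact ha u)
  have e2 : ∀ u, psi h c u * (g u * q v (u - x)) =
      (Ico (c + h) (c + 2 * h)).indicator (fun u => g u * q v (u - x)) u -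
      (Ico c (c + h)).indicator (fun u => g u * q v (u - x)) u := by
    intro u
    simp only [psi, indicator, Pi.one_apply]
    split_ifs <;> ring
  simp only [e2]
  rw [integral_sub (hint.indicator measurableSet_Ico) (hint.indicator measurableSet_Ico),
    integral_indicator measurableSet_Ico, integral_indicator measurableSet_Ico,
    integral_Ico_eq_integral_Ioc, integral_Ico_eq_integral_Ioc,
    ← intervalIntegral.integral_of_le (by linarith), ← intervalIntegral.integral_of_le (by linarith)]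
  have e3 : ∫ u in (c + h)..(c + 2 * h), g u * q v (u - x) =
      ∫ u in c..(c + h), g (u + h) * q v (u + h - x) := by
    rw [intervalIntegral.integral_comp_add_right (fun u => g u * q v (u - x)) h]
    congr 1; ring
  rw [e3, ← intervalIntegral.integral_sub]
  · exact (hint.comp_add_right h).intervalIntegrable
  · exact hint.intervalIntegrable

lemma step_bound {v : ℝ≥0} (hv : 0 < v) {g : ℝ → ℝ} (hg : Measurable g) {a d β : ℝ}
    (h0 : 0 ≤ β) (h1 : β ≤ 1)
    {h : ℝ} (hh : 0 < h) (ha : ∀ z, |g z| ≤ a) (hd : ∀ z, |g (z + h) - g z| ≤ d) (c x : ℝ) :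
    |∫ z, psi h c (x + z) * g (x + z) ∂(gaussianReal 0 v)| ≤
      h * (a * (h ^ β * (v : ℝ) ^ (-(1 + β) / 2)) + d * (√(v : ℝ))⁻¹) := by
  rw [step_eq hv hg ha hh]
  have := intervalIntegral.norm_integral_le_of_norm_le_const (a := c) (b := c + h)
    (f := fun u => g (u + h) * q v (u + h - x) - g u * q v (u - x))
    (C := a * (h ^ β * (v : ℝ) ^ (-(1 + β) / 2)) + d * (√(v : ℝ))⁻¹) (by
      intro u _
      rw [Real.norm_eq_abs]
      have e : g (u + h) * q v (u + h - x) - g u * q v (u - x) =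
        g (u + h) * (q v (u + h - x) - q v (u - x)) + (g (u + h) - g u) * q v (u - x) := by ring
      rw [e]
      refine (abs_add_le _ _).trans ?_
      rw [abs_mul, abs_mul]
      have hq := q_interp hv h0 h1 (u - x) (u + h - x)
      have e2 : |u + h - x - (u - x)| = h := by
        rw [show u + h - x - (u - x) = h by ring, abs_of_pos hh]
      rw [e2] at hq
      have hq2 : |q v (u - x)| ≤ (√(v : ℝ))⁻¹ := by
        rw [abs_of_nonneg (q_nonneg _ _)]; exact q_le hv _
      have ha0 : 0 ≤ a := (abs_nonneg _).trans (ha 0)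
      have hd0 : 0 ≤ d := (abs_nonneg _).trans (hd 0)
      exact add_le_add (mul_le_mul (ha _) hq (abs_nonneg _) ha0)
        (mul_le_mul (hd _) hq2 (abs_nonneg _) hd0))
  rw [Real.norm_eq_abs] at this
  refine this.trans (le_of_eq ?_)
  rw [add_sub_cancel_left, abs_of_pos hh, mul_comm]

lemma step_diff {v : ℝ≥0} (hv : 0 < v) {g : ℝ → ℝ} (hg : Measurable g) {a β : ℝ}
    (h0 : 0 ≤ β) (h1 : β ≤ 1)
    {h : ℝ} (hh : 0 < h) (ha : ∀ z, |g z| ≤ a) (c x : ℝ) :
    |∫ z, psi h c (x + h + z) * g (x + h + z) ∂(gaussianReal 0 v) -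
      ∫ z, psi h c (x + z) * g (x + z) ∂(gaussianReal 0 v)| ≤
      h * (2 * a * (h ^ β * (v : ℝ) ^ (-(1 + β) / 2))) := by
  have hint : ∀ x, Integrable (fun u => g u * q v (u - x)) := by
    intro x
    have h1 : Integrable (fun u => q v (u - x)) := (integrable_gaussianPDFReal 0 v).comp_sub_right x
    exact h1.bdd_mul (c := a) hg.aestronglyMeasurable
      (ae_of_all _ fun u => by rw [Real.norm_eq_abs]; exact ha u)
  have hint2 : ∀ x, IntervalIntegrable
      (fun u => g (u + h) * q v (u + h - x) - g u * q v (u - x)) volume c (c + h) := by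
    intro x
    exact ((hint x).comp_add_right h).intervalIntegrable.sub (hint x).intervalIntegrable
  rw [step_eq hv hg ha hh, step_eq hv hg ha hh, ← intervalIntegral.integral_sub (hint2 _) (hint2 _)]
  have := intervalIntegral.norm_integral_le_of_norm_le_const (a := c) (b := c + h)
    (f := fun u => g (u + h) * q v (u + h - (x + h)) - g u * q v (u - (x + h)) -
      (g (u + h) * q v (u + h - x) - g u * q v (u - x)))
    (C := 2 * a * (h ^ β * (v : ℝ) ^ (-(1 + β) / 2))) (by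
      intro u _
      rw [Real.norm_eq_abs]
      have e : g (u + h) * q v (u + h - (x + h)) - g u * q v (u - (x + h)) -
          (g (u + h) * q v (u + h - x) - g u * q v (u - x)) =
        g (u + h) * (q v (u + h - (x + h)) - q v (u + h - x)) -
          g u * (q v (u - (x + h)) - q v (u - x)) := by ring
      rw [e]
      refine (abs_sub _ _).trans ?_
      rw [abs_mul, abs_mul]
      have hqa := q_interp hv h0 h1 (u + h - x) (u + h - (x + h))
      have e2 : |u + h - (x + h) - (u + h - x)| = h := by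
        rw [show u + h - (x + h) - (u + h - x) = -h by ring, abs_neg, abs_of_pos hh]
      rw [e2] at hqa
      have hqb := q_interp hv h0 h1 (u - x) (u - (x + h))
      have e3 : |u - (x + h) - (u - x)| = h := by
        rw [show u - (x + h) - (u - x) = -h by ring, abs_neg, abs_of_pos hh]
      rw [e3] at hqb
      have ha0 : 0 ≤ a := (abs_nonneg _).trans (ha 0)
      have := add_le_add (mul_le_mul (ha (u + h)) hqa (abs_nonneg _) ha0)
        (mul_le_mul (ha u) hqb (abs_nonneg _) ha0)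
      linarith)
  rw [Real.norm_eq_abs] at this
  refine this.trans (le_of_eq ?_)
  rw [add_sub_cancel_left, abs_of_pos hh, mul_comm]

lemma step_pos {v : ℝ≥0} (hv : 0 < v) {g : ℝ → ℝ} {a : ℝ}
    {h : ℝ} (hh : 0 < h) (ha : ∀ z, |g z| ≤ a) (c x : ℝ) :
    |∫ z, (Ico c (c + h)).indicator 1 (x + z) * g (x + z) ∂(gaussianReal 0 v)| ≤
      h * (a * (√(v : ℝ))⁻¹) := by
  have hq : ∀ z, gaussianPDFReal 0 v z = q v z := fun z => rfl
  rw [integral_gaussianReal_eq_integral_smul hv.ne']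
  simp only [smul_eq_mul, hq]
  have e1 : ∫ z, q v z * ((Ico c (c + h)).indicator 1 (x + z) * g (x + z)) =
      ∫ u, (Ico c (c + h)).indicator (fun u => g u * q v (u - x)) u := by
    rw [← integral_add_left_eq_self (μ := volume)
      (fun u => (Ico c (c + h)).indicator (fun u => g u * q v (u - x)) u) x]
    congr 1; funext z
    simp only [indicator, Pi.one_apply, add_sub_cancel_left]
    split_ifs <;> ring
  rw [e1, integral_indicator measurableSet_Ico, integral_Ico_eq_integral_Ioc,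
    ← intervalIntegral.integral_of_le (by linarith)]
  have := intervalIntegral.norm_integral_le_of_norm_le_const (a := c) (b := c + h)
    (f := fun u => g u * q v (u - x)) (C := a * (√(v : ℝ))⁻¹) (by
      intro u _
      rw [Real.norm_eq_abs, abs_mul]
      have hq2 : |q v (u - x)| ≤ (√(v : ℝ))⁻¹ := by
        rw [abs_of_nonneg (q_nonneg _ _)]; exact q_le hv _
      have ha0 : 0 ≤ a := (abs_nonneg _).trans (ha 0)
      exact mul_le_mul (ha _) hq2 (abs_nonneg _) ha0)
  rw [Real.norm_eq_abs] at this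
  refine this.trans (le_of_eq ?_)
  rw [add_sub_cancel_left, abs_of_pos hh, mul_comm]

end H316.LT
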