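import Pool.Agent.H316R3.LT.Gauss

open MeasureTheory ProbabilityTheory Set Filter Topology
open scoped NNReal ENNReal

namespace H316.LT

/-- A measurable pre-Brownian motion with continuous paths. -/
structure GoodBM {Ω : Type*} [MeasurableSpace Ω] (B : ℝ≥0 → Ω → ℝ) (P : Measure Ω) : Prop where
  pre : IsPreBrownianReal B P
  meas : ∀ t, Measurable (B t)
  cont : ∀ ω, Continuous (fun t => B t ω)

variable {Ω : Type*} {mΩ : MeasurableSpace Ω} {P : Measure Ω} {B : ℝ≥0 → Ω → ℝ}

lemma GoodBM.shift (hB : GoodBM B P) (s : ℝ≥0) :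
    GoodBM (fun t ω => B (s + t) ω - B s ω) P where
  pre := hB.pre.shift s
  meas t := (hB.meas _).sub (hB.meas _)
  cont ω := by
    have := hB.cont ω
    fun_prop

lemma GoodBM.prob (hB : GoodBM B P) : IsProbabilityMeasure P :=
  hB.pre.isGaussianProcess.isProbabilityMeasure

lemma freezing {Ω' : Type*} {mΩ' : MeasurableSpace Ω'} [IsProbabilityMeasure P]
    {X : Ω → ℝ} {Y : Ω → Ω'} (hX : Measurable X) (hY : Measurable Y) (hXY : IndepFun X Y P)
    {F : ℝ × Ω' → ℝ} (hF : Measurable F) {C : ℝ} (hC : ∀ p, |F p| ≤ C) :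
    ∫ ω, F (X ω, Y ω) ∂P = ∫ x, (∫ ω, F (x, Y ω) ∂P) ∂(P.map X) := by
  have h1 := (indepFun_iff_map_prod_eq_prod_map_map hX.aemeasurable hY.aemeasurable).1 hXY
  have hp1 : IsProbabilityMeasure (P.map X) := Measure.isProbabilityMeasure_map hX.aemeasurable
  have hp2 : IsProbabilityMeasure (P.map Y) := Measure.isProbabilityMeasure_map hY.aemeasurable
  have h2 : ∫ ω, F (X ω, Y ω) ∂P = ∫ p, F p ∂(P.map (fun ω => (X ω, Y ω))) := by
    rw [integral_map (hX.prodMk hY).aemeasurable hF.aestronglyMeasurable]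
  rw [h2, h1, integral_prod]
  · congr 1; funext x
    rw [integral_map hY.aemeasurable]
    exact (hF.comp (measurable_prodMk_left)).aestronglyMeasurable
  · exact Integrable.of_bound hF.aestronglyMeasurable C
      (ae_of_all _ fun p => by rw [Real.norm_eq_abs]; exact hC p)

lemma meas_functional {Ω' : Type*} {mΩ' : MeasurableSpace Ω'} {W : ℝ → Ω' → ℝ}
    (hW : Measurable (Function.uncurry W)) {Ψ : ℝ → ℝ → ℝ} (hΨ : Measurable (Function.uncurry Ψ))
    {b : ℝ} (hb : 0 ≤ b) :
    Measurable (fun p : ℝ × Ω' => ∫ r in (0:ℝ)..b, Ψ r (p.1 + W r p.2)) := by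
  simp_rw [intervalIntegral.integral_of_le hb]
  have h1 : StronglyMeasurable (fun p : (ℝ × Ω') × ℝ => Ψ p.2 (p.1.1 + W p.2 p.1.2)) := by
    apply Measurable.stronglyMeasurable
    have h2 : Measurable (fun p : (ℝ × Ω') × ℝ => (p.2, p.1.1 + W p.2 p.1.2)) := by
      apply Measurable.prodMk measurable_snd
      apply Measurable.add (measurable_fst.comp measurable_fst)
      exact hW.comp (measurable_snd.prodMk (measurable_snd.comp measurable_fst))
    exact hΨ.comp h2
  exact (h1.integral_prod_right (ν := volume.restrict (Ioc 0 b))).measurable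

lemma abs_functional_le {g : ℝ → ℝ} {M : ℝ} (hM : ∀ r, |g r| ≤ M) {a b : ℝ} (hab : a ≤ b) :
    |∫ r in a..b, g r| ≤ M * (b - a) := by
  have := intervalIntegral.norm_integral_le_of_norm_le_const (a := a) (b := b) (f := g) (C := M)
    (fun r _ => by rw [Real.norm_eq_abs]; exact hM r)
  rwa [Real.norm_eq_abs, abs_of_nonneg (by linarith : (0:ℝ) ≤ b - a)] at this

/-- path space with the cylinder sigma-algebra -/
abbrev Path := {c : ℝ≥0 → ℝ // Continuous c}

lemma path_eval_meas : Measurable (Function.uncurry (fun (r : ℝ) (c : Path) => c.1 r.toNNReal)) := by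
  apply measurable_uncurry_of_continuous_of_measurable
  · intro c
    have := c.2
    fun_prop
  · intro r
    exact (measurable_pi_apply r.toNNReal).comp measurable_subtype_coe

lemma markov_step (hB : GoodBM B P) (s : ℝ≥0) {Ψ : ℝ → ℝ → ℝ}
    (hΨ : Measurable (Function.uncurry Ψ)) {M : ℝ} (hM : ∀ r u, |Ψ r u| ≤ M)
    {u : ℝ → ℝ} (hu : Measurable u) {M' : ℝ} (hM' : ∀ z, |u z| ≤ M') {b : ℝ} (hb : 0 ≤ b)
    (N : ℕ) (x : ℝ) :
    ∫ ω, u (x + B s ω) * (∫ r in (0:ℝ)..b, Ψ r (x + B (s + r.toNNReal) ω)) ^ N ∂P =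
    ∫ z, u (x + z) * (∫ ω, (∫ r in (0:ℝ)..b,
      Ψ r ((x + z) + (B (s + r.toNNReal) ω - B s ω))) ^ N ∂P) ∂(gaussianReal 0 s) := by
  have hP := hB.prob
  have hmp : Measurable (fun ω (t : ℝ≥0) => B (s + t) ω - B s ω) :=
    measurable_pi_lambda _ fun t => (hB.meas _).sub (hB.meas _)
  let Y : Ω → Path := fun ω => ⟨fun t => B (s + t) ω - B s ω, by
    have := hB.cont ω
    fun_prop⟩
  have hY : Measurable Y := hmp.subtype_mk
  have hind : IndepFun (B s) Y P := by
    have h1 := (hB.pre.indepFun_shift s).symm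
    have h2 : IndepFun (fun ω => B s ω) (fun ω (t : ℝ≥0) => B (s + t) ω - B s ω) P := by
      have hφ : Measurable (fun p : (Set.Iic s → ℝ) => p ⟨s, le_refl s⟩) := measurable_pi_apply _
      have := h1.comp hφ measurable_id
      exact this
    rw [IndepFun_iff_Indep] at h2 ⊢
    have h3 : MeasurableSpace.comap Y inferInstance =
        MeasurableSpace.comap (fun ω (t : ℝ≥0) => B (s + t) ω - B s ω) MeasurableSpace.pi := by
      change MeasurableSpace.comap Y (MeasurableSpace.comap Subtype.val MeasurableSpace.pi) = _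
      rw [MeasurableSpace.comap_comp]
      rfl
    rw [h3]
    exact h2
  set F : ℝ × Path → ℝ := fun p => u (x + p.1) * (∫ r in (0:ℝ)..b,
      Ψ r ((x + p.1) + p.2.1 r.toNNReal)) ^ N with hF
  have hFm : Measurable F := by
    have h3 := meas_functional path_eval_meas hΨ hb
    have h4 : Measurable (fun p : ℝ × Path => (x + p.1, p.2)) := by fun_prop
    have h5 := h3.comp h4
    have h6 : Measurable (fun p : ℝ × Path => u (x + p.1)) := hu.comp (by fun_prop)
    exact h6.mul (h5.pow_const N)
  have hFb : ∀ p, |F p| ≤ M' * (M * b) ^ N := by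
    intro p
    rw [hF]
    simp only
    rw [abs_mul, abs_pow]
    have h7 := abs_functional_le (g := fun r =>
      Ψ r ((x + p.1) + p.2.1 r.toNNReal)) (M := M) (fun r => hM r _) hb
    rw [sub_zero] at h7
    exact mul_le_mul (hM' _) (pow_le_pow_left₀ (abs_nonneg _) h7 N) (by positivity)
      ((abs_nonneg _).trans (hM' 0))
  have hfr := freezing (hB.meas s) hY hind hFm hFb
  rw [(hB.pre.hasLaw_eval s).map_eq] at hfr
  have e1 : ∀ ω, F (B s ω, Y ω) =
      u (x + B s ω) * (∫ r in (0:ℝ)..b, Ψ r (x + B (s + r.toNNReal) ω)) ^ N := by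
    intro ω
    simp only [hF, Y]
    congr 2
    refine intervalIntegral.integral_congr fun r _ => ?_
    congr 1; ring
  simp_rw [e1] at hfr
  rw [hfr]
  congr 1; funext z
  simp only [hF, Y]
  rw [integral_const_mul]

lemma swap_triangle {H : ℝ → ℝ → ℝ} (hH : Measurable (Function.uncurry H)) {M : ℝ}
    {t b : ℝ} (htb : t ≤ b) (hM : ∀ s r, r ∈ Ioc t b → |H s r| ≤ M) :
    ∫ s in t..b, ∫ r in s..b, H s r = ∫ r in t..b, ∫ s in t..r, H s r := by
  have e1 : ∫ s in t..b, ∫ r in s..b, H s r =
      ∫ s in Ioc t b, ∫ r in Ioc t b, (if s < r then H s r else 0) := by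
    rw [intervalIntegral.integral_of_le htb]
    refine setIntegral_congr_fun measurableSet_Ioc fun s hs => ?_
    rw [intervalIntegral.integral_of_le hs.2, ← integral_indicator measurableSet_Ioc,
      ← integral_indicator measurableSet_Ioc]
    congr 1; funext r
    simp only [indicator, mem_Ioc]
    split_ifs <;> first | rfl | (exfalso; grind)
  have e2 : ∫ r in t..b, ∫ s in t..r, H s r =
      ∫ r in Ioc t b, ∫ s in Ioc t b, (if s < r then H s r else 0) := by
    rw [intervalIntegral.integral_of_le htb]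
    refine setIntegral_congr_fun measurableSet_Ioc fun r hr => ?_
    rw [intervalIntegral.integral_of_le hr.1.le, ← integral_indicator measurableSet_Ioc,
      ← integral_indicator measurableSet_Ioc]
    apply integral_congr_ae
    have : ∀ᵐ s : ℝ, s ≠ r := by
      rw [ae_iff]; simp
    filter_upwards [this] with s hs
    simp only [indicator, mem_Ioc]
    have := lt_or_gt_of_ne hs
    split_ifs <;> first | rfl | (exfalso; grind)
  rw [e1, e2]
  apply integral_integral_swap
  have hm : Measurable (Function.uncurry fun s r => if s < r then H s r else 0) := by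
    have : (Function.uncurry fun s r => if s < r then H s r else 0) =
        ({p : ℝ × ℝ | p.1 < p.2}).indicator (Function.uncurry H) := by
      funext p
      simp only [Function.uncurry, indicator, mem_ofPred_eq]
    rw [this]
    exact hH.indicator (measurableSet_lt measurable_fst measurable_snd)
  refine Integrable.of_bound hm.aestronglyMeasurable (max M 0) ?_
  rw [Measure.prod_restrict]
  refine ae_restrict_of_forall_mem (measurableSet_Ioc.prod measurableSet_Ioc) fun p hp => ?_
  simp only [Function.uncurry]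
  rw [Real.norm_eq_abs]
  split_ifs
  · exact (hM _ _ hp.2).trans (le_max_left _ _)
  · simp

lemma bdd_intInt {g : ℝ → ℝ} (hg : Measurable g) {M : ℝ} (hM : ∀ r, |g r| ≤ M) (a b : ℝ) :
    IntervalIntegrable g volume a b := by
  rw [intervalIntegrable_iff]
  unfold uIoc
  exact Integrable.of_bound (C := M) hg.aestronglyMeasurable
    (ae_of_all _ fun p => by rw [Real.norm_eq_abs]; exact hM p)

lemma cont_tail {g : ℝ → ℝ} (hg : Measurable g) {M : ℝ} (hM : ∀ r, |g r| ≤ M) (b : ℝ) :
    Continuous (fun s => ∫ r in s..b, g r) := by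
  have h : (fun s => ∫ r in s..b, g r) = fun s => -∫ r in b..s, g r := by
    funext s; rw [intervalIntegral.integral_symm]
  rw [h]
  exact (intervalIntegral.continuous_primitive (fun a b => bdd_intInt hg hM a b) b).neg

lemma pow_integral {g : ℝ → ℝ} (hg : Measurable g) {M : ℝ} (hM : ∀ r, |g r| ≤ M) (b : ℝ)
    (N : ℕ) : ∀ t ≤ b, (∫ r in t..b, g r) ^ (N + 1) =
      (N + 1) * ∫ s in t..b, g s * (∫ r in s..b, g r) ^ N := by
  induction N with
  | zero => intro t _; simp
  | succ N ih =>
    intro t ht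
    have hM0 : 0 ≤ M := (abs_nonneg _).trans (hM 0)
    set F : ℝ → ℝ := fun s => ∫ r in s..b, g r with hF
    have hFc : Continuous F := cont_tail hg hM b
    have hFb : ∀ r ∈ Icc t b, |F r| ≤ M * (b - t) := by
      intro r hr
      refine (abs_functional_le hM hr.2).trans ?_
      exact mul_le_mul_of_nonneg_left (by linarith [hr.1]) hM0
    have hint : ∀ k : ℕ, IntervalIntegrable (fun s => g s * F s ^ k) volume t b := by
      intro k
      exact (bdd_intInt hg hM t b).mul_continuousOn (hFc.pow k).continuousOn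
    set A := ∫ s in t..b, g s * F s ^ (N + 1) with hA
    have h1 : A = (N + 1) * ∫ s in t..b, ∫ r in s..b, g s * (g r * F r ^ N) := by
      rw [hA, ← intervalIntegral.integral_const_mul]
      refine intervalIntegral.integral_congr fun s hs => ?_
      rw [uIcc_of_le ht] at hs
      have := ih s hs.2
      rw [intervalIntegral.integral_const_mul]
      calc g s * F s ^ (N + 1) = g s * ((N + 1) * ∫ r in s..b, g r * F r ^ N) := by rw [← this]
        _ = _ := by ring
    have h2 : ∫ s in t..b, ∫ r in s..b, g s * (g r * F r ^ N) =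
        ∫ r in t..b, ∫ s in t..r, g s * (g r * F r ^ N) := by
      refine swap_triangle (M := M * (M * (M * (b - t)) ^ N)) ?_ ht ?_
      · have : Measurable (fun p : ℝ × ℝ => g p.1 * (g p.2 * F p.2 ^ N)) := by
          have := hFc.measurable
          fun_prop
        exact this
      · intro s r hr
        rw [abs_mul, abs_mul, abs_pow]
        exact mul_le_mul (hM _) (mul_le_mul (hM _)
          (pow_le_pow_left₀ (abs_nonneg _) (hFb r ⟨hr.1.le, hr.2⟩) N) (by positivity) hM0)
          (by positivity) hM0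
    have h3 : ∫ r in t..b, ∫ s in t..r, g s * (g r * F r ^ N) =
        ∫ r in t..b, (F t * (g r * F r ^ N) - g r * F r ^ (N + 1)) := by
      refine intervalIntegral.integral_congr fun r hr => ?_
      rw [intervalIntegral.integral_mul_const]
      have : ∫ s in t..r, g s = F t - F r := by
        have := intervalIntegral.integral_add_adjacent_intervals
          (bdd_intInt hg hM t r) (bdd_intInt hg hM r b)
        simp only [hF]
        linarith
      rw [this]; ring
    rw [h2, h3, intervalIntegral.integral_sub ((hint N).const_mul _) (hint (N + 1)),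
      intervalIntegral.integral_const_mul] at h1
    have h4 := ih t ht
    change F t ^ (N + 1) = (N + 1) * ∫ s in t..b, g s * F s ^ N at h4
    push_cast
    change F t ^ (N + 1 + 1) = (N + 1 + 1) * A
    have h5 : (N + 1 : ℝ) * (F t * ∫ s in t..b, g s * F s ^ N) = F t * F t ^ (N + 1) := by
      rw [h4]; ring
    rw [← hA, mul_sub, h5] at h1
    rw [pow_succ']
    linarith

/-- recursion for moments of additive functionals -/
theorem recursion (hB : GoodBM B P) {Ψ : ℝ → ℝ → ℝ}
    (hΨ : Measurable (Function.uncurry Ψ)) {M : ℝ} (hM : ∀ r u, |Ψ r u| ≤ M)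
    {b : ℝ} (hb : 0 ≤ b) (N : ℕ) (x : ℝ) :
    IntervalIntegrable (fun s => ∫ z, Ψ s (x + z) * (∫ ω, (∫ r in (0:ℝ)..(b - s),
      Ψ (s + r) ((x + z) + (B (s.toNNReal + r.toNNReal) ω - B s.toNNReal ω))) ^ N ∂P)
        ∂(gaussianReal 0 s.toNNReal)) volume 0 b ∧
    ∫ ω, (∫ r in (0:ℝ)..b, Ψ r (x + B r.toNNReal ω)) ^ (N + 1) ∂P =
    (N + 1) * ∫ s in (0:ℝ)..b, ∫ z, Ψ s (x + z) * (∫ ω, (∫ r in (0:ℝ)..(b - s),
      Ψ (s + r) ((x + z) + (B (s.toNNReal + r.toNNReal) ω - B s.toNNReal ω))) ^ N ∂P)
        ∂(gaussianReal 0 s.toNNReal) := by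
  have hP := hB.prob
  have hM0 : 0 ≤ M := (abs_nonneg _).trans (hM 0 0)
  have hW : Measurable (Function.uncurry (fun (r : ℝ) (ω : Ω) => B r.toNNReal ω)) := by
    apply measurable_uncurry_of_continuous_of_measurable
    · intro ω
      have := hB.cont ω
      fun_prop
    · intro r
      exact hB.meas _
  have hg : Measurable (Function.uncurry (fun (ω : Ω) (r : ℝ) => Ψ r (x + B r.toNNReal ω))) := by
    have : Measurable (fun p : Ω × ℝ => (p.2, x + B p.2.toNNReal p.1)) := by
      apply measurable_snd.prodMk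
      apply measurable_const.add
      exact hW.comp (measurable_snd.prodMk measurable_fst)
    exact hΨ.comp this
  have hgω : ∀ ω, Measurable (fun r : ℝ => Ψ r (x + B r.toNNReal ω)) := fun ω =>
    hg.comp measurable_prodMk_left
  have e1 : ∀ ω, (∫ r in (0:ℝ)..b, Ψ r (x + B r.toNNReal ω)) ^ (N + 1) =
      (N + 1) * ∫ s in Ioc 0 b, Ψ s (x + B s.toNNReal ω) *
        (∫ r in s..b, Ψ r (x + B r.toNNReal ω)) ^ N := by
    intro ω
    rw [← intervalIntegral.integral_of_le hb]
    exact pow_integral (hgω ω) (M := M) (fun r => hM _ _) b N 0 hb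
  have key : ∀ s ∈ Ioc 0 b, ∫ ω, Ψ s (x + B s.toNNReal ω) *
        (∫ r in s..b, Ψ r (x + B r.toNNReal ω)) ^ N ∂P =
      ∫ z, Ψ s (x + z) * (∫ ω, (∫ r in (0:ℝ)..(b - s),
      Ψ (s + r) ((x + z) + (B (s.toNNReal + r.toNNReal) ω - B s.toNNReal ω))) ^ N ∂P)
        ∂(gaussianReal 0 s.toNNReal) := by
    intro s hs
    have hm := markov_step hB s.toNNReal (Ψ := fun r u => Ψ (s + r) u) (M := M) (M' := M)
      (by
        have : Measurable (fun p : ℝ × ℝ => (s + p.1, p.2)) := by fun_prop
        exact hΨ.comp this)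
      (fun r u => hM _ _) (u := Ψ s) (hΨ.comp measurable_prodMk_left) (hM s)
      (b := b - s) (by linarith [hs.2]) N x
    rw [← hm]
    congr 1; funext ω
    congr 2
    have e2 : ∫ r in (0:ℝ)..(b - s), Ψ (s + r) (x + B (s.toNNReal + r.toNNReal) ω) =
        ∫ r in (0:ℝ)..(b - s), Ψ (s + r) (x + B ((s + r).toNNReal) ω) := by
      refine intervalIntegral.integral_congr fun r hr => ?_
      rw [uIcc_of_le (by linarith [hs.2])] at hr
      rw [Real.toNNReal_add hs.1.le hr.1]
    rw [e2, intervalIntegral.integral_comp_add_left (fun r => Ψ r (x + B r.toNNReal ω))]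
    congr 1 <;> ring
  have hint : Integrable (Function.uncurry fun (ω : Ω) (s : ℝ) => Ψ s (x + B s.toNNReal ω) *
        (∫ r in s..b, Ψ r (x + B r.toNNReal ω)) ^ N) (P.prod (volume.restrict (Ioc 0 b))) := by
    have h1 : Measurable (fun p : Ω × ℝ => ∫ r in p.2..b, Ψ r (x + B r.toNNReal p.1)) := by
      have h0 : Measurable (Function.uncurry (fun (s : ℝ) (ω : Ω) =>
          ∫ r in s..b, Ψ r (x + B r.toNNReal ω))) := by
        apply measurable_uncurry_of_continuous_of_measurable
        · intro ω
          exact cont_tail (hgω ω) (M := M) (fun r => hM _ _) b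
        · intro s
          have h5 : ∀ c d : ℝ, Measurable (fun ω => ∫ r in Ioc c d, Ψ r (x + B r.toNNReal ω)) :=
            fun c d => (hg.stronglyMeasurable.integral_prod_right
              (ν := volume.restrict (Ioc c d))).measurable
          unfold intervalIntegral
          exact (h5 _ _).sub (h5 _ _)
      exact h0.comp measurable_swap
    have h2 : Measurable (Function.uncurry fun (ω : Ω) (s : ℝ) => Ψ s (x + B s.toNNReal ω) *
        (∫ r in s..b, Ψ r (x + B r.toNNReal ω)) ^ N) := hg.mul (h1.pow_const N)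
    refine Integrable.of_bound h2.aestronglyMeasurable (M * (M * b) ^ N) ?_
    have h3 : P.prod (volume.restrict (Ioc 0 b)) = (P.prod volume).restrict (univ ×ˢ Ioc 0 b) := by
      rw [← Measure.prod_restrict, Measure.restrict_univ]
    rw [h3]
    refine ae_restrict_of_forall_mem (MeasurableSet.univ.prod measurableSet_Ioc) fun p hp => ?_
    simp only [Function.uncurry]
    rw [Real.norm_eq_abs, abs_mul, abs_pow]
    refine mul_le_mul (hM _ _) (pow_le_pow_left₀ (abs_nonneg _) ?_ N) (by positivity) hM0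
    refine (abs_functional_le (fun r => hM _ _) hp.2.2).trans ?_
    exact mul_le_mul_of_nonneg_left (by linarith [hp.2.1]) hM0
  constructor
  · rw [intervalIntegrable_iff_integrableOn_Ioc_of_le hb]
    have h4 := hint.integral_prod_right
    refine (integrableOn_congr_fun (fun s hs => ?_) measurableSet_Ioc).1 h4
    exact key s hs
  simp_rw [e1]
  rw [integral_const_mul, intervalIntegral.integral_of_le hb]
  congr 1
  rw [integral_integral_swap hint]
  exact setIntegral_congr_fun measurableSet_Ioc key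

end H316.LT
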